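import Pool.Agent.H88.A2.Def
import Pool.Agent.H14.AA.Cls

/-! # [H88 A2 CLS] Collinear integer points with small value (helper82, as `H8.AA.cls`) -/

namespace Pool.Agent.H88.A2

open Polynomial Pool.Agent.H8.AA

/-- the restriction of `F` to a line -/
private theorem restr (n : ℕ) (hn : 1 ≤ n) (e : ℕ → ℕ → ℤ) (hz : Nz n e) (a b v w : ℤ) (hvw : (v, w) ≠ (0, 0)) :
    ∃ Q : ℤ[X], Q.natDegree = n ∧ ∀ k : ℤ, Q.eval k = ev n e (a + v * k) (b + w * k) := by
  have hvw' : v ≠ 0 ∨ w ≠ 0 := by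
    by_contra hcon
    push Not at hcon
    exact hvw (by rw [hcon.1, hcon.2])
  obtain ⟨Q, hQ⟩ : ∃ Q : ℤ[X], Q = ∑ k ∈ Finset.range (n + 1), ∑ j ∈ Finset.range (k + 1),
      C (e (k - j) j) * ((C a + C v * X) ^ (k - j) * (C b + C w * X) ^ j) := ⟨_, rfl⟩
  have hterm : ∀ k ∈ Finset.range (n + 1), ∀ j ∈ Finset.range (k + 1),
      (C (e (k - j) j) * ((C a + C v * X : ℤ[X]) ^ (k - j) * (C b + C w * X) ^ j)).natDegree ≤ k := by
    intro k _ j hj
    have hj' := Finset.mem_range.1 hj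
    refine (natDegree_C_mul_le _ _).trans ((Pool.Agent.H14.AA.mono_deg a b v w _ _).trans ?_)
    omega
  have hle : Q.natDegree ≤ n := by
    rw [hQ]
    refine natDegree_sum_le_of_forall_le _ _ fun k hk => natDegree_sum_le_of_forall_le _ _ fun j hj => ?_
    have hk' := Finset.mem_range.1 hk
    exact (hterm k hk j hj).trans (by omega)
  have hco : Q.coeff n = ∑ j ∈ Finset.range (n + 1), e (n - j) j * (v ^ (n - j) * w ^ j) := by
    rw [hQ, finsetSum_coeff, Finset.sum_eq_single n]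
    · rw [finsetSum_coeff]
      refine Finset.sum_congr rfl fun j hj => ?_
      have hj' := Finset.mem_range.1 hj
      have h1 := Pool.Agent.H14.AA.mono_coeff a b v w (n - j) j
      rw [Nat.sub_add_cancel (by omega)] at h1
      rw [coeff_C_mul, h1]
    · intro k hk hkn
      have hk' := Finset.mem_range.1 hk
      rw [finsetSum_coeff]
      refine Finset.sum_eq_zero fun j hj => ?_
      exact coeff_eq_zero_of_natDegree_lt (lt_of_le_of_lt (hterm k hk j hj) (by omega))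
    · intro hn'
      exact absurd (Finset.mem_range.2 (by omega)) hn'
  refine ⟨Q, le_antisymm hle (le_natDegree_of_ne_zero ?_), ?_⟩
  · rw [hco]
    exact hz v w hvw'
  · intro k
    rw [hQ]
    unfold ev
    rw [eval_finsetSum]
    refine Finset.sum_congr rfl fun i _ => ?_
    rw [eval_finsetSum]
    refine Finset.sum_congr rfl fun j _ => ?_
    simp

theorem cls2 (n : ℕ) (hn : 1 ≤ n) (e : ℕ → ℕ → ℤ) (hz : Nz n e) (H : ℝ) (hH : 1 ≤ H) (T : Finset (ℤ × ℤ))
    (hcol : ∀ P ∈ T, ∀ Q ∈ T, ∀ R ∈ T, (Q.1 - P.1) * (R.2 - P.2) = (R.1 - P.1) * (Q.2 - P.2))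
    (hev : ∀ P ∈ T, |((ev n e P.1 P.2 : ℤ) : ℝ)| ≤ H) : (T.card : ℝ) ≤ n * (2 * H ^ (1 / (n : ℝ)) + 1) := by
  have hH0 : (0 : ℝ) ≤ H := by linarith
  refine Pool.Agent.H14.AA.line_count_gen (by omega) (ev n e) (restr n hn e hz) H (H ^ (1 / (n : ℝ)))
    (Real.rpow_nonneg hH0 _) ?_ T hcol hev
  rw [← Real.rpow_natCast (H ^ (1 / (n : ℝ))) n, ← Real.rpow_mul hH0, one_div, inv_mul_cancel₀, Real.rpow_one]
  have : (n : ℝ) ≠ 0 := by
    have : n ≠ 0 := by omega
    exact_mod_cast this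
  exact this

end Pool.Agent.H88.A2
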