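import Pool.Agent.H88.A2.Str
import Pool.Agent.H88.A2.Cls
import Pool.Agent.H42.AA.Half3
import Pool.Agent.H8.AA.Med

/-! # [H88 A2 MED] The middle range, scaled form (helper82)

As helper42's `Half`, `Half2`, `Half3` (H42/AA) with windows `κ = K S^(2/3)` instead of `K A`: class of `(x,y)`, `|y| ≤ |x|`: sign of `x`,
`Nat.log 2 |x|`, `⌊(|x| - 2^s) κ / 2^s⌋`, number of real roots of `(fm e n)'` below `y/x`. (1) at a point of the set `|φ_n(y/x)| < B/A` (the rest of `Φ` is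
at most `C B (S/|x|) + H/|x|^n`), so no point of the set is at a root of `φ_n'` (`Gd`), so no root between two points of one class (`Nz` at `(0,1)`:
`(fm e n).natDegree = n`). (2) `str2`: one class is collinear; (3) `cls2`. Number of classes `2 (log₂ U + 1) (κ + 1) n`. `X = 2^s ≥ |x|/2`: so `2 K` for `K`.
Second chart: `sw e` (`ev_sw`, `Bs` and `Nz` are symmetric). -/

namespace Pool.Agent.H88.A2

open Finset Polynomial Pool.Agent.H8.AA Pool.Agent.H42.AA Pool.Agent.H82.AF Pool.Agent.H6.AB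

theorem nz_top {n : ℕ} {e : ℕ → ℕ → ℤ} (hz : Nz n e) : e 0 n ≠ 0 := by
  have h := hz 0 1 (Or.inr one_ne_zero)
  rw [Finset.sum_eq_single n] at h
  · simpa using h
  · intro j hj hjn
    have hj' := Finset.mem_range.1 hj
    rw [zero_pow (by omega)]
    ring
  · intro hn'
    exact absurd (Finset.mem_range.2 (by omega)) hn'

theorem nz_sw {n : ℕ} {e : ℕ → ℕ → ℤ} (hz : Nz n e) : Nz n (sw e) := by
  intro v w hvw
  have h := hz w v hvw.symm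
  intro h0
  apply h
  rw [← h0, ← Finset.sum_range_reflect]
  refine Finset.sum_congr rfl fun j hj => ?_
  have hj' := Finset.mem_range.1 hj
  have h1 : n + 1 - 1 - j = n - j := by omega
  have h2 : n - (n - j) = j := by omega
  rw [h1, h2]
  unfold sw
  ring

theorem bs_sw {n : ℕ} {B S : ℝ} {e : ℕ → ℕ → ℤ} (he : Bs n B S e) : Bs n B S (sw e) := by
  intro a b hab
  have h := he b a (by omega)
  have h1 : n - b - a = n - a - b := by omega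
  rw [h1] at h
  exact h

theorem small_topS {n H : ℕ} (hn : 4 ≤ n) {B S : ℝ} (hB : 1 ≤ B) (hS : 1 ≤ S)
    (hH2 : (H : ℝ) ≤ S ^ (n - 2)) {e : ℕ → ℕ → ℤ} (he : Bs n B S e) {x y : ℤ}
    (hx : x ≠ 0) (hxS : S ≤ |(x : ℝ)|) (hxy : |y| ≤ |x|) (hev : |ev n e x y| ≤ (H : ℤ)) :
    |aeval ((y : ℝ) / x) (fm e n)| ≤ ((((n : ℝ) + 1) ^ 2 * n + 1) * B) * S / |(x : ℝ)| := by
  have hB0 : 0 < B := by linarith
  have hS0 : 0 < S := by linarith
  have hx' : (x : ℝ) ≠ 0 := by exact_mod_cast hx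
  have hx1 : 1 ≤ |(x : ℝ)| := hS.trans hxS
  have hx0 : 0 < |(x : ℝ)| := by linarith
  have ht : |(y : ℝ) / x| ≤ 1 := by
    rw [abs_div, div_le_one hx0]
    exact_mod_cast hxy
  have hq : (1 : ℝ) / S ≠ 0 := by positivity
  have hu : |1 / (x : ℝ) / (1 / S)| = S / |(x : ℝ)| := by
    rw [abs_div, abs_div, abs_one, abs_div, abs_one, abs_of_pos hS0]
    field_simp
  have h1 := Ph_near n hB0.le (b := bs n e (1 / S)) (fun k _ j _ => bs_le hB hS he k j)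
    (u := 1 / (x : ℝ) / (1 / S)) (by rw [hu, div_le_one hx0]; exact hxS) ht
  rw [Ph_zero, hu] at h1
  have h2 : |Ph n (bs n e (1 / S)) (1 / (x : ℝ) / (1 / S)) ((y : ℝ) / x)| ≤ B * (S / |(x : ℝ)|) := by
    rw [Ph_bs n e hq, Ph_bb]
    have g1 := ev_eq n e x y hx
    have g2 : |(ev n e x y : ℝ)| ≤ H := by exact_mod_cast hev
    rw [g1, abs_mul, abs_pow] at g2
    obtain ⟨T, hT⟩ : ∃ T : ℝ, T = |∑ k ∈ Finset.range (n + 1), (1 / (x : ℝ)) ^ (n - k) *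
      aeval ((y : ℝ) / x) (fm e k)| := ⟨_, rfl⟩
    rw [← hT] at g2 ⊢
    have hXn : |(x : ℝ)| ^ n = |(x : ℝ)| ^ (n - 2) * |(x : ℝ)| ^ 2 := by rw [← pow_add]; congr 1; omega
    rw [hXn] at g2
    have g3 : (H : ℝ) ≤ |(x : ℝ)| ^ (n - 2) := hH2.trans (pow_le_pow_left₀ hS0.le hxS _)
    have g4 : |(x : ℝ)| ^ 2 * T ≤ 1 := by
      have g5 : |(x : ℝ)| ^ (n - 2) * (|(x : ℝ)| ^ 2 * T) ≤ |(x : ℝ)| ^ (n - 2) * 1 := by
        calc _ = |(x : ℝ)| ^ (n - 2) * |(x : ℝ)| ^ 2 * T := by ring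
          _ ≤ H := g2
          _ ≤ _ := by rw [mul_one]; exact g3
      exact le_of_mul_le_mul_left g5 (by positivity)
    rw [mul_div_assoc', le_div_iff₀ hx0]
    have hT0 : 0 ≤ T := by rw [hT]; exact abs_nonneg _
    calc T * |(x : ℝ)| ≤ |(x : ℝ)| ^ 2 * T := by
          have : |(x : ℝ)| ≤ |(x : ℝ)| ^ 2 := le_self_pow₀ hx1 (by norm_num)
          nlinarith
      _ ≤ 1 := g4
      _ ≤ B * S := by nlinarith
  calc |aeval ((y : ℝ) / x) (fm e n)| =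
      |Ph n (bs n e (1 / S)) (1 / (x : ℝ) / (1 / S)) ((y : ℝ) / x) -
        (Ph n (bs n e (1 / S)) (1 / (x : ℝ) / (1 / S)) ((y : ℝ) / x) - aeval ((y : ℝ) / x) (fm e n))| := by ring_nf
    _ ≤ B * (S / |(x : ℝ)|) + ((n : ℝ) + 1) ^ 2 * (B * (n * (S / |(x : ℝ)|))) :=
        (abs_sub _ _).trans (add_le_add h2 h1)
    _ = _ := by ring

/-- points of one class are collinear -/
theorem fib_cardS (n : ℕ) (hn : 4 ≤ n) (B A : ℝ) (hB : 1 ≤ B) (hA : 1 ≤ A) : ∃ K : ℝ, 1 ≤ K ∧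
    ∀ (e : ℕ → ℕ → ℤ) (H : ℕ) (V : ℝ), 1 ≤ H → 1 ≤ V → (H : ℝ) ≤ V ^ (n - 2) →
    Bs n B V e → Nz n e → Gd n (B / A) e → ∀ S : Finset (ℤ × ℤ),
    (∀ P ∈ S, |ev n e P.1 P.2| ≤ (H : ℤ) ∧ |P.2| ≤ |P.1| ∧
      (2 * K + (((n : ℝ) + 1) ^ 2 * n + 1) * A) * V ≤ (|P.1| : ℤ)) →
    ∀ c, ((S.filter (fun P => kl n e (K * V ^ (2 / 3 : ℝ)) P = c)).card : ℝ) ≤
      n * (2 * (H : ℝ) ^ (1 / (n : ℝ)) + 1) := by
  obtain ⟨K, hK, hstr⟩ := str2 n hn B A hB hA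
  refine ⟨K, hK, ?_⟩
  intro e H V hH hV hH2 hU hI hG S hS c
  have hH' : (1 : ℝ) ≤ (H : ℝ) := by exact_mod_cast hH
  have hA0 : 0 < A := by linarith
  have hB0 : 0 < B := by linarith
  have hV0 : 0 < V := by linarith
  have hn0 : (0 : ℝ) ≤ n := Nat.cast_nonneg n
  have hH23 : 1 ≤ V ^ (2 / 3 : ℝ) := Real.one_le_rpow hV (by norm_num)
  have hκ : 0 < K * V ^ (2 / 3 : ℝ) := by positivity
  -- facts on single points
  have hpt : ∀ P ∈ S, P.1 ≠ 0 ∧ |ev n e P.1 P.2| ≤ (H : ℤ) ∧ |P.2| ≤ |P.1| ∧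
      (2 * K + (((n : ℝ) + 1) ^ 2 * n + 1) * A) * V ≤ |(P.1 : ℝ)| ∧
      aeval ((P.2 : ℝ) / P.1) (derivative (fm e n)) ≠ 0 := by
    intro P hP
    obtain ⟨h1, h2, h3⟩ := hS P hP
    have h3' : (2 * K + (((n : ℝ) + 1) ^ 2 * n + 1) * A) * V ≤ |(P.1 : ℝ)| := by
      rw [Int.cast_abs] at h3
      exact h3
    have hpos : 0 < (2 * K + (((n : ℝ) + 1) ^ 2 * n + 1) * A) * V := by positivity
    have hx0 : 0 < |(P.1 : ℝ)| := lt_of_lt_of_le hpos h3'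
    have hx : P.1 ≠ 0 := by
      intro h4
      rw [h4] at hx0
      simp at hx0
    refine ⟨hx, h1, h2, h3', ?_⟩
    have h6 : (((n : ℝ) + 1) ^ 2 * n + 1) * A * V ≤ |(P.1 : ℝ)| := by
      refine le_trans ?_ h3'
      have : 0 ≤ 2 * K * V := by positivity
      nlinarith
    have h7 : 1 * V ≤ |(P.1 : ℝ)| := by
      refine le_trans ?_ h6
      have g1 : 1 ≤ (((n : ℝ) + 1) ^ 2 * n + 1) * A := by
        have g2 : 0 ≤ ((n : ℝ) + 1) ^ 2 * n := by positivity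
        nlinarith
      exact mul_le_mul_of_nonneg_right g1 hV0.le
    rw [one_mul] at h7
    have h4 := small_topS hn hB hV hH2 hU hx h7 h2 h1
    have h5 : ((((n : ℝ) + 1) ^ 2 * n + 1) * B) * V / |(P.1 : ℝ)| ≤ B / A := by
      rw [div_le_div_iff₀ hx0 hA0]
      calc ((((n : ℝ) + 1) ^ 2 * n + 1) * B) * V * A = B * ((((n : ℝ) + 1) ^ 2 * n + 1) * A * V) := by ring
        _ ≤ B * |(P.1 : ℝ)| := by gcongr
    have ht : |((P.2 : ℝ) / P.1)| ≤ 1 := by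
      rw [abs_div, div_le_one hx0]
      exact_mod_cast h2
    rcases hG _ ht with h6 | h6
    · exact absurd h6 (not_lt.2 (h4.trans h5))
    · intro h7
      rw [h7, abs_zero] at h6
      have : (0 : ℝ) ≤ B / A := by positivity
      linarith
  refine cls2 n (by omega) e hI H hH' _ ?_ ?_
  · -- collinear
    intro P hP Q hQ R hR
    rw [Finset.mem_filter] at hP hQ hR
    have hPQR : ∀ i : Fin 3, (![P, Q, R] i) ∈ S ∧ kl n e (K * V ^ (2 / 3 : ℝ)) (![P, Q, R] i) = c := by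
      intro i
      fin_cases i
      · exact hP
      · exact hQ
      · exact hR
    have hk : ∀ i j : Fin 3, kl n e (K * V ^ (2 / 3 : ℝ)) (![P, Q, R] i) =
        kl n e (K * V ^ (2 / 3 : ℝ)) (![P, Q, R] j) :=
      fun i j => (hPQR i).2.trans (hPQR j).2.symm
    have hsc : ∀ i : Fin 3, sc (![P, Q, R] i).1 = sc P.1 := fun i => by
      have h1 := congrArg (fun z : Bool × ℕ × ℕ × ℕ => z.2.1) (hk i 0)
      exact h1
    have key := hstr e H V ((2 : ℝ) ^ sc P.1) hH' hV hH2 hU hG ?_ (fun i => (![P, Q, R] i).1)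
      (fun i => (![P, Q, R] i).2) ?_ ?_ ?_
    · exact key
    · -- K S <= X
      have h1 := (hpt P hP.1).2.2.2.1
      have h2 := lt_sc P.1
      have h3 : (2 * K) * V ≤ (2 * K + (((n : ℝ) + 1) ^ 2 * n + 1) * A) * V :=
        mul_le_mul_of_nonneg_right (by
          have : (0 : ℝ) ≤ (((n : ℝ) + 1) ^ 2 * n + 1) * A := by positivity
          linarith) (by positivity)
      linarith
    · intro i
      obtain ⟨h1, h2, h3, h4, h5⟩ := hpt _ (hPQR i).1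
      refine ⟨?_, ?_, h3, by exact_mod_cast h2⟩
      · have := sc_le h1
        rw [hsc i] at this
        exact this
      · have := lt_sc (![P, Q, R] i).1
        rw [hsc i] at this
        exact this.le
    · intro i j
      have h0 : 0 < (![P, Q, R] i).1 * (![P, Q, R] j).1 :=
        sign_of_kl (hpt _ (hPQR i).1).1 (hpt _ (hPQR j).1).1
          (congrArg (fun z : Bool × ℕ × ℕ × ℕ => z.1) (hk i j))
      have h0' : (0 : ℝ) < ((![P, Q, R] i).1 : ℝ) * ((![P, Q, R] j).1 : ℝ) := by exact_mod_cast h0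
      show |((![P, Q, R] i).1 : ℝ) - ((![P, Q, R] j).1 : ℝ)| ≤ (2 : ℝ) ^ sc P.1 / (K * V ^ (2 / 3 : ℝ))
      rw [abs_sub_of_pos h0']
      have h1 := wi_close hκ (hpt _ (hPQR i).1).1 (hpt _ (hPQR j).1).1
        ((hsc i).trans (hsc j).symm) (congrArg (fun z : Bool × ℕ × ℕ × ℕ => z.2.2.1) (hk i j))
      rw [hsc i] at h1
      exact h1
    · intro i j s hs
      have hc : cb n e (((![P, Q, R] i).2 : ℝ) / (![P, Q, R] i).1) =
          cb n e (((![P, Q, R] j).2 : ℝ) / (![P, Q, R] j).1) :=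
        congrArg (fun z : Bool × ℕ × ℕ × ℕ => z.2.2.2) (hk i j)
      rw [Set.mem_uIcc] at hs
      rcases hs with ⟨h1, h2⟩ | ⟨h1, h2⟩
      · rcases h2.lt_or_eq with h3 | h3
        · exact no_crit (by omega) (nz_top hI) h1 h3 hc
        · rw [h3]
          exact (hpt _ (hPQR j).1).2.2.2.2
      · rcases h2.lt_or_eq with h3 | h3
        · exact no_crit (by omega) (nz_top hI) h1 h3 hc.symm
        · rw [h3]
          exact (hpt _ (hPQR i).1).2.2.2.2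
  · intro P hP
    rw [Finset.mem_filter] at hP
    have h1 := (hpt P hP.1).2.1
    exact_mod_cast h1

theorem half2 (n : ℕ) (hn : 4 ≤ n) (B A : ℝ) (hB : 1 ≤ B) (hA : 1 ≤ A) : ∃ C K : ℝ, 0 ≤ C ∧ 1 ≤ K ∧
    ∀ (e : ℕ → ℕ → ℤ) (H : ℕ) (S U : ℝ), 1 ≤ H → 1 ≤ S → (H : ℝ) ≤ S ^ (n - 2) → 1 ≤ U → Bs n B S e → Nz n e →
    Gd n (B / A) e → ∀ T : Finset (ℤ × ℤ),
    (∀ P ∈ T, |ev n e P.1 P.2| ≤ (H : ℤ) ∧ |P.2| ≤ |P.1| ∧ K * S ≤ |(P.1 : ℝ)| ∧ |(P.1 : ℝ)| ≤ U) →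
    (T.card : ℝ) ≤ C * S ^ (2 / 3 : ℝ) * (H : ℝ) ^ (1 / (n : ℝ)) * (1 + Real.log U) := by
  obtain ⟨K, hK, hf⟩ := fib_cardS n hn B A hB hA
  refine ⟨36 * K * n ^ 2, 2 * K + (((n : ℝ) + 1) ^ 2 * n + 1) * A, by positivity, ?_, ?_⟩
  · have : 0 ≤ (((n : ℝ) + 1) ^ 2 * n + 1) * A := by positivity
    linarith
  intro e H V U hH hV hH2 hU1 hU hI hG S hS
  have hH' : (1 : ℝ) ≤ (H : ℝ) := by exact_mod_cast hH
  have hV0 : 0 < V := by linarith
  have hlog : 0 ≤ Real.log U := Real.log_nonneg hU1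
  have hfib := hf e H V hH hV hH2 hU hI hG S fun P hP => ⟨(hS P hP).1, (hS P hP).2.1, by
    rw [Int.cast_abs]
    exact (hS P hP).2.2.1⟩
  obtain ⟨M, hM⟩ : ∃ M : ℝ, M = (n : ℝ) * (2 * (H : ℝ) ^ (1 / (n : ℝ)) + 1) := ⟨_, rfl⟩
  obtain ⟨Q, hQ⟩ : ∃ Q : ℝ, Q = V ^ (2 / 3 : ℝ) := ⟨_, rfl⟩
  rw [← hM, ← hQ] at hfib
  rw [← hQ]
  have hQ1 : 1 ≤ Q := by rw [hQ]; exact Real.one_le_rpow hV (by norm_num)
  -- the set of classes
  obtain ⟨T, hT⟩ : ∃ T : Finset (Bool × ℕ × ℕ × ℕ), T =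
    (Finset.univ : Finset Bool) ×ˢ (range (⌊2 * Real.log U⌋₊ + 1) ×ˢ
      (range (⌊K * Q⌋₊ + 1) ×ˢ range n)) := ⟨_, rfl⟩
  have hmaps : ∀ P ∈ S, kl n e (K * Q) P ∈ T := by
    intro P hP
    obtain ⟨h1, h2, h3', h4⟩ := hS P hP
    have hpos : 0 < (2 * K + (((n : ℝ) + 1) ^ 2 * n + 1) * A) * V := by positivity
    have hx0 : 0 < |(P.1 : ℝ)| := lt_of_lt_of_le hpos h3'
    have hx : P.1 ≠ 0 := by
      intro h5
      rw [h5] at hx0
      simp at hx0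
    have h5 := sc_le hx
    have h6 := lt_sc P.1
    rw [hT]
    simp only [Finset.mem_product, Finset.mem_univ, true_and, kl, Finset.mem_range]
    refine ⟨?_, ?_, cb_lt (by omega) e _⟩
    · -- the scale
      rw [Nat.lt_succ_iff]
      apply Nat.le_floor
      have h8 : (2 : ℝ) ^ sc P.1 ≤ U := h5.trans h4
      have h9 : (sc P.1 : ℝ) * Real.log 2 ≤ Real.log U := by
        have h10 := Real.log_le_log (by positivity) h8
        rw [Real.log_pow] at h10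
        exact h10
      have h11 : (1 : ℝ) / 2 ≤ Real.log 2 := by
        have := Real.log_two_gt_d9
        linarith
      have h12 : (0 : ℝ) ≤ (sc P.1 : ℝ) := Nat.cast_nonneg _
      nlinarith
    · -- the window
      rw [Nat.lt_succ_iff]
      unfold wi
      apply Nat.floor_le_floor
      have hX0 : (0 : ℝ) < 2 ^ sc P.1 := by positivity
      rw [div_le_iff₀ hX0]
      have h7 : |(P.1 : ℝ)| - 2 ^ sc P.1 ≤ 2 ^ sc P.1 := by linarith
      calc (|(P.1 : ℝ)| - 2 ^ sc P.1) * (K * Q) ≤ 2 ^ sc P.1 * (K * Q) :=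
            mul_le_mul_of_nonneg_right h7 (by positivity)
        _ = K * Q * 2 ^ sc P.1 := by ring
  have hcard : (S.card : ℝ) ≤ T.card * M := by
    rw [Finset.card_eq_sum_card_fiberwise hmaps]
    push_cast
    calc ∑ c ∈ T, ((S.filter (fun P => kl n e (K * Q) P = c)).card : ℝ) ≤ ∑ c ∈ T, M :=
          Finset.sum_le_sum fun c _ => hfib c
      _ = T.card * M := by rw [Finset.sum_const, nsmul_eq_mul]
  have hTc : (T.card : ℝ) = 2 * ((⌊2 * Real.log U⌋₊ + 1 : ℕ) * ((⌊K * Q⌋₊ + 1 : ℕ) * n)) := by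
    rw [hT, Finset.card_product, Finset.card_product, Finset.card_product, Finset.card_range,
      Finset.card_range, Finset.card_range, Finset.card_univ, Fintype.card_bool]
    push_cast
    ring
  have hb1 : ((⌊2 * Real.log U⌋₊ + 1 : ℕ) : ℝ) ≤
      3 * (1 + Real.log U) := by
    have h1 := Nat.floor_le (show (0 : ℝ) ≤ 2 * Real.log U by positivity)
    push_cast
    linarith
  have hb2 : ((⌊K * Q⌋₊ + 1 : ℕ) : ℝ) ≤ 2 * K * Q := by
    have h1 := Nat.floor_le (show (0 : ℝ) ≤ K * Q by positivity)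
    push_cast
    nlinarith
  have hHn : (1 : ℝ) ≤ (H : ℝ) ^ (1 / (n : ℝ)) := Real.one_le_rpow hH' (by positivity)
  have hb3 : M ≤ 3 * n * (H : ℝ) ^ (1 / (n : ℝ)) := by
    rw [hM]
    have hn0 : (0 : ℝ) ≤ n := Nat.cast_nonneg _
    nlinarith
  have hM0 : 0 ≤ M := by
    rw [hM]
    positivity
  have hn0 : (0 : ℝ) ≤ n := Nat.cast_nonneg _
  calc (S.card : ℝ) ≤ T.card * M := hcard
    _ = (2 * ((⌊2 * Real.log U⌋₊ + 1 : ℕ) * ((⌊K * Q⌋₊ + 1 : ℕ) * n))) * M := by rw [hTc]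
    _ ≤ (2 * ((3 * (1 + Real.log U)) * ((2 * K * Q) * n))) *
          (3 * n * (H : ℝ) ^ (1 / (n : ℝ))) := by
        apply mul_le_mul _ hb3 hM0 (by positivity)
        apply mul_le_mul_of_nonneg_left _ (by norm_num)
        apply mul_le_mul hb1 _ (by positivity) (by positivity)
        exact mul_le_mul_of_nonneg_right hb2 hn0
    _ = 36 * K * n ^ 2 * Q * (H : ℝ) ^ (1 / (n : ℝ)) * (1 + Real.log U) := by ring

/-- both charts -/
theorem med2 (n : ℕ) (hn : 4 ≤ n) (B A : ℝ) (hB : 1 ≤ B) (hA : 1 ≤ A) : ∃ C K : ℝ, 0 ≤ C ∧ 1 ≤ K ∧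
    ∀ (e : ℕ → ℕ → ℤ) (H : ℕ) (S U : ℝ), 1 ≤ H → 1 ≤ S → (H : ℝ) ≤ S ^ (n - 2) → 1 ≤ U → Bs n B S e → Nz n e →
    Gd n (B / A) e → Gd n (B / A) (sw e) → ∀ T : Finset (ℤ × ℤ),
    (∀ P ∈ T, |ev n e P.1 P.2| ≤ (H : ℤ) ∧ K * S ≤ max |(P.1 : ℝ)| |(P.2 : ℝ)| ∧ max |(P.1 : ℝ)| |(P.2 : ℝ)| ≤ U) →
    (T.card : ℝ) ≤ C * S ^ (2 / 3 : ℝ) * (H : ℝ) ^ (1 / (n : ℝ)) * (1 + Real.log U) := by
  obtain ⟨C, K, hC, hK, hh⟩ := half2 n hn B A hB hA
  refine ⟨2 * C, K, by positivity, hK, ?_⟩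
  intro e H V U hH hV hH2 hU1 hU hI hG hG' S hS
  have h1 := hh e H V U hH hV hH2 hU1 hU hI hG (S.filter fun P => |P.2| ≤ |P.1|) (by
    intro P hP
    rw [Finset.mem_filter] at hP
    obtain ⟨h2, h3, h4⟩ := hS P hP.1
    have h5 : |(P.2 : ℝ)| ≤ |(P.1 : ℝ)| := by exact_mod_cast hP.2
    rw [max_eq_left h5] at h3 h4
    exact ⟨h2, hP.2, h3, h4⟩)
  have h2 := hh (sw e) H V U hH hV hH2 hU1 (bs_sw hU) (nz_sw hI) hG'
    ((S.filter fun P => ¬ |P.2| ≤ |P.1|).image Prod.swap) (by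
    intro Q hQ
    rw [Finset.mem_image] at hQ
    obtain ⟨P, hP, rfl⟩ := hQ
    rw [Finset.mem_filter] at hP
    obtain ⟨h2, h3, h4⟩ := hS P hP.1
    have h5 : |P.1| ≤ |P.2| := (not_le.1 hP.2).le
    have h5' : |(P.1 : ℝ)| ≤ |(P.2 : ℝ)| := by exact_mod_cast h5
    rw [max_eq_right h5'] at h3 h4
    refine ⟨?_, h5, h3, h4⟩
    show |ev n (sw e) P.2 P.1| ≤ (H : ℤ)
    rw [ev_sw]
    exact h2)
  rw [Finset.card_image_of_injective _ Prod.swap_injective] at h2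
  have h3 : S.card = (S.filter fun P => |P.2| ≤ |P.1|).card +
      (S.filter fun P => ¬ |P.2| ≤ |P.1|).card :=
    (Finset.card_filter_add_card_filter_not _).symm
  rw [h3]
  push_cast
  linarith

end Pool.Agent.H88.A2
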