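import Pool.Agent.H88.A2.Ar
import Pool.Agent.H2.AA.Sng

/-! # [H88 A2 GD] The fixed leading form

`f` irreducible over `ℚ`, homogeneous of degree `n ≥ 2`: no zero in `ℤ²` (`nz_of`), `f(1,T)` irreducible of degree `n` (`H2.AA.dh_irr`), so `f(1,T)`, `f_T(1,T)`
are coprime, no common real zero; `t ↦ max |f(1,t)| |f_t(1,t)|` is continuous and positive on `[-1,1]`, so `≥ c > 0`, take `A` with `B / A < c`. The other chart: the
reversed polynomial (exchange the variables, `MvPolynomial.rename`, or `f(t,1) = t^n f(1,1/t)`). `gd_congr`, `nz_congr`: only the coefficients with `a + b = n` enter. -/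

namespace Pool.Agent.H88.A2

open Finset Pool.Agent.H8.AA

private theorem fm_congr {n : ℕ} {e e' : ℕ → ℕ → ℤ} (h : ∀ a b, a + b = n → e a b = e' a b) :
    fm e n = fm e' n := by
  unfold fm
  refine Finset.sum_congr rfl fun j hj => ?_
  have := Finset.mem_range.1 hj
  rw [h (n - j) j (by omega)]

theorem gd_congr {n : ℕ} {B : ℝ} {e e' : ℕ → ℕ → ℤ} (h : ∀ a b, a + b = n → e a b = e' a b) (hg : Gd n B e) : Gd n B e' := by
  unfold Gd at hg ⊢
  rw [← fm_congr h]
  exact hg

theorem nz_congr {n : ℕ} {e e' : ℕ → ℕ → ℤ} (h : ∀ a b, a + b = n → e a b = e' a b) (hg : Nz n e) : Nz n e' := by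
  intro v w hvw
  have h1 : ∑ j ∈ range (n + 1), e' (n - j) j * (v ^ (n - j) * w ^ j) =
      ∑ j ∈ range (n + 1), e (n - j) j * (v ^ (n - j) * w ^ j) := by
    refine Finset.sum_congr rfl fun j hj => ?_
    have := Finset.mem_range.1 hj
    rw [h (n - j) j (by omega)]
  rw [h1]
  exact hg v w hvw

private theorem hc_eq (n : ℕ) (G : MvPolynomial (Fin 2) ℤ) :
    MvPolynomial.homogeneousComponent n G = ∑ i ∈ range (n + 1),
      MvPolynomial.monomial (Finsupp.single 0 i + Finsupp.single 1 (n - i)) (ar G i (n - i)) := by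
  classical
  ext m
  rw [MvPolynomial.coeff_homogeneousComponent, MvPolynomial.coeff_sum]
  simp only [MvPolynomial.coeff_monomial]
  have hm : Finsupp.single 0 (m 0) + Finsupp.single 1 (m 1) = m := by
    ext i
    fin_cases i <;> simp
  have hdeg : m.degree = m 0 + m 1 := by
    conv_lhs => rw [← hm]
    simp
  split_ifs with h
  · rw [Finset.sum_eq_single (m 0)]
    · have h1 : n - m 0 = m 1 := by omega
      rw [h1, if_pos hm]
      unfold ar
      rw [hm]
    · intro i _ hi
      rw [if_neg]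
      intro h2
      apply hi
      rw [← h2]
      simp
    · intro h2
      exfalso
      apply h2
      rw [Finset.mem_range]
      omega
  · rw [Finset.sum_eq_zero]
    intro i hi
    rw [if_neg]
    intro h2
    apply h
    have h3 := Finset.mem_range.1 hi
    have h4 : m 0 = i := by
      rw [← h2]
      simp
    have h5 : m 1 = n - i := by
      rw [← h2]
      simp
    rw [hdeg, h4, h5]
    omega

private theorem dh_mono (i j : ℕ) (c : ℤ) :
    Pool.Agent.H2.AA.dh (MvPolynomial.monomial (Finsupp.single 0 i + Finsupp.single 1 j) c) =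
      Polynomial.monomial i c := by
  unfold Pool.Agent.H2.AA.dh
  have h1 : (Finsupp.single (0 : Fin 2) i + Finsupp.single 1 j : Fin 2 →₀ ℕ) 0 = i := by simp
  have h2 : (Finsupp.single (0 : Fin 2) i + Finsupp.single 1 j : Fin 2 →₀ ℕ) 1 = j := by simp
  rw [MvPolynomial.aeval_monomial, Finsupp.prod_fintype _ _ (fun _ => pow_zero _), Fin.prod_univ_two,
    h1, h2]
  simp only [Matrix.cons_val_zero, Matrix.cons_val_one, one_pow, mul_one]
  exact Polynomial.C_mul_X_pow_eq_monomial

private theorem fm_sw (n : ℕ) (G : MvPolynomial (Fin 2) ℤ) :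
    fm (sw (ar G)) n = Pool.Agent.H2.AA.dh (MvPolynomial.homogeneousComponent n G) := by
  rw [hc_eq]
  have h1 : Pool.Agent.H2.AA.dh (∑ i ∈ range (n + 1),
      MvPolynomial.monomial (Finsupp.single 0 i + Finsupp.single 1 (n - i)) (ar G i (n - i))) =
      ∑ i ∈ range (n + 1), Pool.Agent.H2.AA.dh
        (MvPolynomial.monomial (Finsupp.single 0 i + Finsupp.single 1 (n - i)) (ar G i (n - i))) := by
    unfold Pool.Agent.H2.AA.dh
    rw [map_sum]
  rw [h1]
  unfold fm sw
  refine Finset.sum_congr rfl fun j _ => ?_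
  rw [dh_mono]

private theorem fm_id (n : ℕ) (G : MvPolynomial (Fin 2) ℤ) :
    fm (ar G) n = Pool.Agent.H2.AA.dh
      (MvPolynomial.rename (Equiv.swap (0 : Fin 2) 1) (MvPolynomial.homogeneousComponent n G)) := by
  rw [hc_eq]
  have h1 : Pool.Agent.H2.AA.dh (MvPolynomial.rename (Equiv.swap (0 : Fin 2) 1) (∑ i ∈ range (n + 1),
      MvPolynomial.monomial (Finsupp.single 0 i + Finsupp.single 1 (n - i)) (ar G i (n - i)))) =
      ∑ i ∈ range (n + 1), Polynomial.monomial (n - i) (ar G i (n - i)) := by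
    unfold Pool.Agent.H2.AA.dh
    rw [map_sum, map_sum]
    refine Finset.sum_congr rfl fun i _ => ?_
    rw [MvPolynomial.rename_monomial]
    have h2 : Finsupp.mapDomain (Equiv.swap (0 : Fin 2) 1)
        (Finsupp.single (0 : Fin 2) i + Finsupp.single 1 (n - i)) =
        Finsupp.single 0 (n - i) + Finsupp.single 1 i := by
      rw [Finsupp.mapDomain_add, Finsupp.mapDomain_single, Finsupp.mapDomain_single,
        Equiv.swap_apply_left, Equiv.swap_apply_right, add_comm]
    rw [h2]
    exact dh_mono _ _ _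
  rw [h1]
  unfold fm
  rw [← Finset.sum_range_reflect]
  refine Finset.sum_congr rfl fun j hj => ?_
  have h3 := Finset.mem_range.1 hj
  have h4 : n + 1 - 1 - j = n - j := by omega
  have h5 : n - (n - j) = j := by omega
  rw [h4, h5]

private theorem irr_sw {n : ℕ} (hn : 2 ≤ n) {G : MvPolynomial (Fin 2) ℤ}
    (h : Irreducible (MvPolynomial.map (Int.castRingHom ℚ) (MvPolynomial.homogeneousComponent n G))) :
    ((fm (sw (ar G)) n).map (Int.castRingHom ℚ)).natDegree = n ∧
      Irreducible ((fm (sw (ar G)) n).map (Int.castRingHom ℚ)) := by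
  rw [fm_sw, ← Pool.Agent.H2.AA.dh_map]
  exact Pool.Agent.H2.AA.dh_irr hn ((MvPolynomial.homogeneousComponent_isHomogeneous _ _).map _) h

private theorem irr_id {n : ℕ} (hn : 2 ≤ n) {G : MvPolynomial (Fin 2) ℤ}
    (h : Irreducible (MvPolynomial.map (Int.castRingHom ℚ) (MvPolynomial.homogeneousComponent n G))) :
    ((fm (ar G) n).map (Int.castRingHom ℚ)).natDegree = n ∧
      Irreducible ((fm (ar G) n).map (Int.castRingHom ℚ)) := by
  rw [fm_id, ← Pool.Agent.H2.AA.dh_map, MvPolynomial.map_rename]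
  refine Pool.Agent.H2.AA.dh_irr hn
    ((MvPolynomial.homogeneousComponent_isHomogeneous _ _).map _).rename_isHomogeneous ?_
  exact (MulEquiv.irreducible_iff (MvPolynomial.renameEquiv ℚ (Equiv.swap (0 : Fin 2) 1))).2 h

theorem nz_of {n : ℕ} (hn : 2 ≤ n) {G : MvPolynomial (Fin 2) ℤ}
    (h : Irreducible (MvPolynomial.map (Int.castRingHom ℚ) (MvPolynomial.homogeneousComponent n G))) : Nz n (ar G) := by
  obtain ⟨hd, hi⟩ := irr_sw hn h
  intro v w hvw h0
  rcases eq_or_ne w 0 with hw | hw
  · have hv : v ≠ 0 := by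
      rcases hvw with h1 | h1
      · exact h1
      · exact absurd hw h1
    rw [hw, Finset.sum_eq_single 0] at h0
    · have h1 : ar G n 0 = 0 := by
        have h2 : ar G (n - 0) 0 * (v ^ (n - 0) * 0 ^ 0) = ar G n 0 * v ^ n := by simp
        rw [h2] at h0
        rcases mul_eq_zero.1 h0 with h3 | h3
        · exact h3
        · exact absurd h3 (pow_ne_zero _ hv)
      have h4 : ((fm (sw (ar G)) n).map (Int.castRingHom ℚ)).coeff n = 0 := by
        rw [Polynomial.coeff_map, fm_coeff, if_pos le_rfl]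
        have : sw (ar G) (n - n) n = ar G n 0 := by
          unfold sw
          rw [Nat.sub_self]
        rw [this, h1, map_zero]
      have h5 : ((fm (sw (ar G)) n).map (Int.castRingHom ℚ)).leadingCoeff = 0 := by
        unfold Polynomial.leadingCoeff
        rw [hd]
        exact h4
      exact hi.ne_zero (Polynomial.leadingCoeff_eq_zero.1 h5)
    · intro j _ hj
      rw [zero_pow hj, mul_zero, mul_zero]
    · intro h1
      exfalso
      apply h1
      rw [Finset.mem_range]
      omega
  · have hwq : (w : ℚ) ≠ 0 := by exact_mod_cast hw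
    have h1 : ((fm (sw (ar G)) n).map (Int.castRingHom ℚ)).IsRoot ((v : ℚ) / w) := by
      rw [Polynomial.IsRoot.def, Polynomial.eval_map]
      unfold fm
      rw [Polynomial.eval₂_finsetSum]
      have h2 : (w : ℚ) ^ n * ∑ j ∈ range (n + 1), (Polynomial.monomial j (sw (ar G) (n - j) j)).eval₂
          (Int.castRingHom ℚ) ((v : ℚ) / w) = 0 := by
        have h3 : (w : ℚ) ^ n * ∑ j ∈ range (n + 1), (Polynomial.monomial j (sw (ar G) (n - j) j)).eval₂
            (Int.castRingHom ℚ) ((v : ℚ) / w) =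
            ((∑ j ∈ range (n + 1), ar G (n - j) j * (v ^ (n - j) * w ^ j) : ℤ) : ℚ) := by
          rw [← Finset.sum_range_reflect, Finset.mul_sum, Int.cast_sum]
          refine Finset.sum_congr rfl fun j hj => ?_
          have h4 := Finset.mem_range.1 hj
          have h5 : n + 1 - 1 - j = n - j := by omega
          have h6 : n - (n - j) = j := by omega
          rw [h5, h6, Polynomial.eval₂_monomial]
          unfold sw
          push_cast
          have h7 : (w : ℚ) ^ n = (w : ℚ) ^ (n - j) * (w : ℚ) ^ j := by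
            rw [← pow_add]
            congr 1
            omega
          rw [h7, div_pow]
          have h8 : (Int.castRingHom ℚ) (ar G (n - j) j) = ((ar G (n - j) j : ℤ) : ℚ) := rfl
          rw [h8]
          field_simp
        rw [h3, h0]
        simp
      rcases mul_eq_zero.1 h2 with h3 | h3
      · exact absurd h3 (pow_ne_zero _ hwq)
      · exact h3
    have h2 := Polynomial.degree_eq_one_of_irreducible_of_root hi h1
    have h3 : ((fm (sw (ar G)) n).map (Int.castRingHom ℚ)).natDegree = 1 :=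
      Polynomial.natDegree_eq_of_degree_eq_some (by rw [h2]; rfl)
    omega

private theorem pos_chart {φ : Polynomial ℤ}
    (hi : Irreducible (φ.map (Int.castRingHom ℚ))) :
    ∃ c : ℝ, 0 < c ∧ ∀ t : ℝ, |t| ≤ 1 → c ≤ |Polynomial.aeval t φ| ∨
      c ≤ |Polynomial.aeval t (Polynomial.derivative φ)| := by
  have hsep : IsCoprime (φ.map (Int.castRingHom ℚ)) (Polynomial.derivative (φ.map (Int.castRingHom ℚ))) :=
    hi.separable
  obtain ⟨u, v, huv⟩ := hsep
  have hno : ∀ t : ℝ, Polynomial.aeval t φ ≠ 0 ∨ Polynomial.aeval t (Polynomial.derivative φ) ≠ 0 := by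
    intro t
    by_contra hcon
    push Not at hcon
    have h1 : Polynomial.aeval t (φ.map (Int.castRingHom ℚ)) = 0 := by
      rw [← algebraMap_int_eq, Polynomial.aeval_map_algebraMap]
      exact hcon.1
    have h2 : Polynomial.aeval t (Polynomial.derivative (φ.map (Int.castRingHom ℚ))) = 0 := by
      rw [Polynomial.derivative_map, ← algebraMap_int_eq, Polynomial.aeval_map_algebraMap]
      exact hcon.2
    have h3 := congrArg (Polynomial.aeval t) huv
    rw [map_add, map_mul, map_mul, h1, h2, mul_zero, mul_zero, add_zero, map_one] at h3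
    exact zero_ne_one h3
  have hc : Continuous fun t : ℝ => max |Polynomial.aeval t φ| |Polynomial.aeval t (Polynomial.derivative φ)| :=
    (Polynomial.continuous_aeval φ).abs.max (Polynomial.continuous_aeval _).abs
  obtain ⟨t₀, ht₀, hmin⟩ := isCompact_Icc.exists_isMinOn (s := Set.Icc (-1 : ℝ) 1)
    ⟨0, by constructor <;> norm_num⟩ hc.continuousOn
  refine ⟨max |Polynomial.aeval t₀ φ| |Polynomial.aeval t₀ (Polynomial.derivative φ)|, ?_, ?_⟩
  · rcases hno t₀ with h1 | h1
    · exact lt_max_of_lt_left (abs_pos.2 h1)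
    · exact lt_max_of_lt_right (abs_pos.2 h1)
  · intro t ht
    have h1 : max |Polynomial.aeval t₀ φ| |Polynomial.aeval t₀ (Polynomial.derivative φ)| ≤
        max |Polynomial.aeval t φ| |Polynomial.aeval t (Polynomial.derivative φ)| :=
      hmin (show t ∈ Set.Icc (-1 : ℝ) 1 from abs_le.1 ht)
    exact le_max_iff.1 h1

theorem gd_of {n : ℕ} (hn : 2 ≤ n) {G : MvPolynomial (Fin 2) ℤ}
    (h : Irreducible (MvPolynomial.map (Int.castRingHom ℚ) (MvPolynomial.homogeneousComponent n G))) (B : ℝ) (hB : 0 < B) :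
    ∃ A : ℝ, 1 ≤ A ∧ Gd n (B / A) (ar G) ∧ Gd n (B / A) (sw (ar G)) := by
  obtain ⟨c₁, hc₁, h₁⟩ := pos_chart (irr_id hn h).2
  obtain ⟨c₂, hc₂, h₂⟩ := pos_chart (irr_sw hn h).2
  obtain ⟨c, hc⟩ : ∃ c, c = min c₁ c₂ := ⟨_, rfl⟩
  have hc0 : 0 < c := by
    rw [hc]
    exact lt_min hc₁ hc₂
  have hA : 0 < max 1 (2 * B / c) := lt_of_lt_of_le one_pos (le_max_left _ _)
  have hlt : B / max 1 (2 * B / c) < c := by
    rw [div_lt_iff₀ hA]
    have h3 : 2 * B / c ≤ max 1 (2 * B / c) := le_max_right _ _
    have h4 : c * (2 * B / c) = 2 * B := by field_simp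
    have h5 : c * (2 * B / c) ≤ c * max 1 (2 * B / c) := mul_le_mul_of_nonneg_left h3 hc0.le
    linarith
  have hl1 : B / max 1 (2 * B / c) < c₁ := hlt.trans_le (by rw [hc]; exact min_le_left _ _)
  have hl2 : B / max 1 (2 * B / c) < c₂ := hlt.trans_le (by rw [hc]; exact min_le_right _ _)
  refine ⟨max 1 (2 * B / c), le_max_left _ _, ?_, ?_⟩
  · intro t ht
    rcases h₁ t ht with h3 | h3
    · exact Or.inl (hl1.trans_le h3)
    · exact Or.inr (hl1.trans_le h3)
  · intro t ht
    rcases h₂ t ht with h3 | h3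
    · exact Or.inl (hl2.trans_le h3)
    · exact Or.inr (hl2.trans_le h3)

end Pool.Agent.H88.A2
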