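import Pool.Agent.H88.A2.Def
import Pool.Agent.H85.AA.Pol

/-! # [H88 A2 AR] coefficient arrays of polynomials

All immediate: `F = ∑ over its support`, monomials `m = single 0 (m 0) + single 1 (m 1)`, `m 0 + m 1 ≤ n` on the support.
`ar_pol`, `pol_deg`: `Pool.Agent.H85.AA`. -/

namespace Pool.Agent.H88.A2

open Finset Pool.Agent.H8.AA

theorem ar_add (F G : MvPolynomial (Fin 2) ℤ) (a b : ℕ) : ar (F + G) a b = ar F a b + ar G a b := by
  simp [ar]

theorem ar_pol {n : ℕ} (c : Ix n → ℤ) : ar (pol c) = co c := by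
  funext a b
  unfold ar
  rw [Pool.Agent.H85.AA.pol_coeff]
  simp

theorem ar_zero {n : ℕ} {F : MvPolynomial (Fin 2) ℤ} (hF : F.totalDegree ≤ n) {a b : ℕ} (h : n < a + b) : ar F a b = 0 := by
  rw [← Pool.Agent.H85.AA.pol_surj F hF, ar_pol]
  unfold co
  rw [dif_neg (by omega)]

theorem ar_ev {n : ℕ} {F : MvPolynomial (Fin 2) ℤ} (hF : F.totalDegree ≤ n) (P : Fin 2 → ℤ) :
    ev n (ar F) (P 0) (P 1) = MvPolynomial.eval P F := by
  rw [← Pool.Agent.H85.AA.pol_surj F hF, ar_pol, Pool.Agent.H85.AA.pol_eval]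

theorem pol_deg {n : ℕ} (c : Ix n → ℤ) : (pol c).totalDegree ≤ n :=
  Pool.Agent.H85.AA.pol_deg c

/-- the form of degree `n` at a point -/
theorem ar_top {n : ℕ} (F : MvPolynomial (Fin 2) ℤ) (v w : ℤ) :
    ∑ j ∈ range (n + 1), ar F (n - j) j * (v ^ (n - j) * w ^ j) =
      MvPolynomial.eval ![v, w] (MvPolynomial.homogeneousComponent n F) := by
  have hd : (MvPolynomial.homogeneousComponent n F).totalDegree ≤ n :=
    (MvPolynomial.homogeneousComponent_isHomogeneous n F).totalDegree_le
  rw [← ar_ev hd]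
  have hc : ∀ a b, ar (MvPolynomial.homogeneousComponent n F) a b = if a + b = n then ar F a b else 0 := by
    intro a b
    unfold ar
    rw [MvPolynomial.coeff_homogeneousComponent]
    have : (Finsupp.single (0 : Fin 2) a + Finsupp.single 1 b : Fin 2 →₀ ℕ).degree = a + b := by
      rw [map_add, Finsupp.degree_single, Finsupp.degree_single]
    rw [this]
  unfold ev
  symm
  rw [Finset.sum_eq_single n]
  · refine Finset.sum_congr rfl fun j hj => ?_
    have := Finset.mem_range.1 hj
    rw [hc, if_pos (by omega)]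
    simp
  · intro k hk hkn
    apply Finset.sum_eq_zero
    intro j hj
    have := Finset.mem_range.1 hj
    rw [hc, if_neg (by omega), zero_mul]
  · intro h
    exact absurd (Finset.mem_range.2 (Nat.lt_succ_self n)) h

end Pool.Agent.H88.A2
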