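import Pool.Agent.H88.A2.Ar
import Pool.Agent.H8.AA.Box
import Pool.Agent.H2.AA.Sng
import Pool.Agent.H12.ON.Fam

/-! # [H88 A2 LRG] Few lower parts with a large integer zero

`H12.ON.family n` gives `E` (`F = G + pol c`, all coefficients `≤ B H`, `B H ≥ 2`). `T₁`: `F` not smooth: `fib` with `J = {ix 0 0}`, `M = (2n)^2` (`H2.AA.sng` for
`G + pol (c with c (ix 0 0) = 0)`; the form of degree `n` is that of `G`). `T₂`: smooth. `j + 2 ≤ n`: `(F - G).totalDegree ≤ j ≤ n - 2`, `c ↦ pol c` injective: `|T₂| ≤ n`.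
`j = n - 1`: (a) `F_(n-1) = G_(n-1) + L_(n-1)` in the span of `f_x, f_y` over `ℚ`: the vectors of coefficients of elements of the span are a subspace of `ℚ^n` of
dimension `≤ 2 < n`, so some coordinate is a linear function of the others on it (`fib` with that `J = {ix (n-1-i) i}`, `M = 1`: if two such `c, c'` agree
elsewhere then the difference of their `F_(n-1)` is `d x^(n-1-i) y^i` in the span, `d ≠ 0`; choose `i` with `x^(n-1-i) y^i` not in the span);
(b) not in the span: `fib` with `J` = indices with `a + b ≤ n - 2`, `M = n` (`family` with `G + pol c₀` for `G`), `|Ix j| - |J| = n ≤ |Ix j| - 1`. -/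

namespace Pool.Agent.H88.A2

open MvPolynomial Pool.Agent.H8.AA

private theorem xe (a b : ℕ) : ((Finsupp.single (0 : Fin 2) a + Finsupp.single 1 b : Fin 2 →₀ ℕ) 0 = a) ∧
    ((Finsupp.single (0 : Fin 2) a + Finsupp.single 1 b : Fin 2 →₀ ℕ) 1 = b) := by
  constructor <;> simp

private theorem deg2 (m : Fin 2 →₀ ℕ) : m.degree = m 0 + m 1 := by
  rw [Finsupp.degree_eq_sum, Fin.sum_univ_two]

private theorem sum2 (m : Fin 2 →₀ ℕ) : (m.sum fun _ e => e) = m 0 + m 1 := by
  rw [Finsupp.sum_fintype _ _ (by simp), Fin.sum_univ_two]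

private theorem pinj {n : ℕ} {c d : Ix n → ℤ} (h : pol c = pol d) : c = d := by
  funext p
  have h1 := congrArg (coeff (Finsupp.single 0 p.1.1.val + Finsupp.single 1 p.1.2.val)) h
  rw [pol_coeff, pol_coeff, (xe _ _).1, (xe _ _).2, co_of_le _ p.2, co_of_le _ p.2] at h1
  exact h1

private theorem ix_eq {n a b a' b' : ℕ} {h : a + b ≤ n} {h' : a' + b' ≤ n} (he : ix a b h = ix a' b' h') :
    a = a' ∧ b = b' := by
  have h3 := congrArg (fun p : Ix n => (p.1.1.val, p.1.2.val)) he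
  simpa only [ix, Prod.mk.injEq] using h3

/-- vectors which differ in one place -/
private theorem pol_one {n : ℕ} {c d : Ix n → ℤ} (a b : ℕ) (hab : a + b ≤ n)
    (h : ∀ i, i ≠ ix a b hab → d i = c i) :
    pol d = pol c + monomial (Finsupp.single 0 a + Finsupp.single 1 b) (d (ix a b hab) - c (ix a b hab)) := by
  ext m
  rw [coeff_add, pol_coeff, pol_coeff, coeff_monomial]
  by_cases hm : Finsupp.single 0 a + Finsupp.single 1 b = m
  · rw [if_pos hm, ← hm, (xe _ _).1, (xe _ _).2, co_of_le _ hab, co_of_le _ hab]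
    ring
  · rw [if_neg hm, add_zero]
    unfold co
    split_ifs with h1
    · refine h _ (fun h2 => hm ?_)
      obtain ⟨h3, h4⟩ := ix_eq h2
      ext i
      fin_cases i
      · show (Finsupp.single (0 : Fin 2) a + Finsupp.single 1 b : Fin 2 →₀ ℕ) 0 = m 0
        rw [(xe _ _).1, h3]
      · show (Finsupp.single (0 : Fin 2) a + Finsupp.single 1 b : Fin 2 →₀ ℕ) 1 = m 1
        rw [(xe _ _).2, h4]
    · rfl

private theorem hcn {n j : ℕ} (hj : j < n) (G : MvPolynomial (Fin 2) ℤ) (c : Ix j → ℤ) :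
    homogeneousComponent n (G + pol c) = homogeneousComponent n G := by
  rw [map_add, homogeneousComponent_eq_zero n (pol c) (lt_of_le_of_lt (Pool.Agent.H8.AA.pol_deg c) hj), add_zero]

private theorem td_le {n j : ℕ} (hj : j < n) {G : MvPolynomial (Fin 2) ℤ} (hG : G.totalDegree ≤ n) (c : Ix j → ℤ) :
    (G + pol c).totalDegree ≤ n :=
  (totalDegree_add _ _).trans (max_le hG ((Pool.Agent.H8.AA.pol_deg c).trans hj.le))

private theorem cf_le {j B H : ℕ} (hB : 2 ≤ B) (hH : 1 ≤ H) {G : MvPolynomial (Fin 2) ℤ}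
    (hG : ∀ m, |G.coeff m| + 1 ≤ (B : ℤ)) {c : Ix j → ℤ} (hc : ∀ p, |c p| ≤ (H : ℤ)) (m : Fin 2 →₀ ℕ) :
    |(G + pol c).coeff m| ≤ ((B * H : ℕ) : ℤ) := by
  have h1 : |(pol c).coeff m| ≤ (H : ℤ) := by
    rw [pol_coeff]
    unfold co
    split_ifs with h
    · exact hc _
    · simp
  rw [coeff_add]
  have h2 := hG m
  have h3 := abs_add_le (G.coeff m) ((pol c).coeff m)
  have h4 : (B : ℤ) - 1 + H ≤ B * H := by
    have h5 : (2 : ℤ) ≤ B := by exact_mod_cast hB
    have h6 : (1 : ℤ) ≤ H := by exact_mod_cast hH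
    nlinarith
  push_cast
  linarith

/-- some monomial of degree `n - 1 ≥ 2` is not in the span of two polynomials -/
private theorem ex_mono {n : ℕ} (hn : 3 ≤ n) (u v : MvPolynomial (Fin 2) ℚ) :
    ∃ i < n, ∀ w₀ w₁ : ℚ, monomial (Finsupp.single 0 (n - 1 - i) + Finsupp.single 1 i) (1 : ℚ) ≠ C w₀ * u + C w₁ * v := by
  by_contra hcon
  push Not at hcon
  have h3 : ∀ i : Fin 3, ∃ w₀ w₁ : ℚ, monomial (Finsupp.single 0 (n - 1 - i) + Finsupp.single 1 (i : ℕ)) (1 : ℚ) =
      C w₀ * u + C w₁ * v := fun i => hcon i (by omega)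
  choose w₀ w₁ hw using h3
  obtain ⟨W, hW⟩ : ∃ W : Submodule ℚ (MvPolynomial (Fin 2) ℚ), W = Submodule.span ℚ {u, v} := ⟨_, rfl⟩
  have hmem : ∀ i : Fin 3, monomial (Finsupp.single 0 (n - 1 - i) + Finsupp.single 1 (i : ℕ)) (1 : ℚ) ∈ W := by
    intro i
    rw [hw i, hW, Submodule.mem_span_pair]
    exact ⟨w₀ i, w₁ i, by rw [C_mul', C_mul']⟩
  have hli : LinearIndependent ℚ (fun i : Fin 3 => (⟨_, hmem i⟩ : W)) := by
    apply LinearIndependent.of_comp W.subtype
    have h4 : LinearIndependent ℚ (fun i : Fin 3 =>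
        monomial (Finsupp.single 0 (n - 1 - i) + Finsupp.single 1 (i : ℕ) : Fin 2 →₀ ℕ) (1 : ℚ)) := by
      have h5 := (basisMonomials (Fin 2) ℚ).linearIndependent.comp
        (fun i : Fin 3 => (Finsupp.single 0 (n - 1 - i) + Finsupp.single 1 (i : ℕ) : Fin 2 →₀ ℕ)) (by
          intro a b hab
          have h6 := DFunLike.congr_fun hab 1
          simp only at h6
          rw [(xe _ _).2, (xe _ _).2] at h6
          exact Fin.ext h6)
      have h6 : (⇑(basisMonomials (Fin 2) ℚ) ∘ fun i : Fin 3 =>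
          (Finsupp.single 0 (n - 1 - i) + Finsupp.single 1 (i : ℕ) : Fin 2 →₀ ℕ)) = fun i : Fin 3 =>
          monomial (Finsupp.single 0 (n - 1 - i) + Finsupp.single 1 (i : ℕ) : Fin 2 →₀ ℕ) (1 : ℚ) := by
        funext i
        rw [Function.comp_apply, coe_basisMonomials]
      rw [h6] at h5
      exact h5
    exact h4
  have hfin : Module.Finite ℚ W := by
    rw [hW]
    exact Module.Finite.iff_fg.2 (Submodule.fg_span (by simp))
  have h5 := hli.fintype_card_le_finrank
  rw [Fintype.card_fin, hW] at h5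
  have h6 : Module.finrank ℚ (Submodule.span ℚ ({u, v} : Set (MvPolynomial (Fin 2) ℚ))) ≤ 2 := by
    classical
    have h7 := finrank_span_finset_le_card (R := ℚ) ({u, v} : Finset (MvPolynomial (Fin 2) ℚ))
    unfold Set.finrank at h7
    rw [Finset.coe_pair] at h7
    exact h7.trans Finset.card_le_two
  omega

/-- the singular ones -/
private theorem sing {n j : ℕ} {G : MvPolynomial (Fin 2) ℤ} (hG : Hyp n j G) {H : ℕ} (T : Finset (Ix j → ℤ))
    (hT : ∀ c ∈ T, (∀ p, |c p| ≤ (H : ℤ)) ∧ ¬ H12.ON.Smooth (G + pol c)) :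
    T.card ≤ (2 * n) ^ 2 * (2 * H + 1) ^ (Fintype.card (Ix j) - 1) := by
  classical
  have hj := hG.hjn
  have h4 := hG.hn
  have hmain := fib ({ix 0 0 (by omega)} : Finset (Ix j)) H ((2 * n) ^ 2) T (fun c hc => (hT c hc).1) ?_
  · rw [Finset.card_singleton] at hmain
    exact hmain
  · intro c hc S hS
    have hirr : Irreducible (map (Int.castRingHom ℚ) (homogeneousComponent n (G + pol c))) := by
      rw [hcn hj]
      exact hG.irr
    have h1 := H2.AA.sng (by omega : 2 ≤ n) (G + pol c) (td_le hj hG.deg c) hirr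
    have h2 : ((S.image (fun d => d (ix 0 0 (by omega)) - c (ix 0 0 (by omega))) : Finset ℤ) : Set ℤ) ⊆
        {τ : ℤ | ∃ a b : ℂ, aeval ![a, b] (G + pol c + C τ) = 0 ∧ aeval ![a, b] (pderiv 0 (G + pol c)) = 0 ∧
          aeval ![a, b] (pderiv 1 (G + pol c)) = 0} := by
      intro τ hτ
      rw [Finset.mem_coe, Finset.mem_image] at hτ
      obtain ⟨d, hd, rfl⟩ := hτ
      obtain ⟨hdS, hdc⟩ := hS d hd
      have hpa := pol_one (c := c) (d := d) 0 0 (by omega) (fun i hi => hdc i (by simpa using hi))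
      have hC : monomial (Finsupp.single 0 0 + Finsupp.single 1 0 : Fin 2 →₀ ℕ) (d (ix 0 0 (by omega)) - c (ix 0 0 (by omega))) =
          (C (d (ix 0 0 (by omega)) - c (ix 0 0 (by omega))) : MvPolynomial (Fin 2) ℤ) := by
        rw [Finsupp.single_zero, Finsupp.single_zero, add_zero]
        rfl
      rw [hC] at hpa
      have h3 := (hT d hdS).2
      unfold H12.ON.Smooth at h3
      push Not at h3
      obtain ⟨a, b, k1, k2, k3⟩ := h3
      rw [hpa, ← add_assoc] at k1 k2 k3
      rw [map_add (pderiv _) (G + pol c), pderiv_C, add_zero] at k2 k3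
      exact ⟨a, b, k1, k2, k3⟩
    have h4 := (Set.encard_le_encard h2).trans h1
    rw [Set.encard_coe_eq_coe_finsetCard, Finset.card_image_of_injOn] at h4
    · exact_mod_cast h4
    · intro d hd e he hde
      have h5 : d (ix 0 0 (by omega)) = e (ix 0 0 (by omega)) := by
        have : d (ix 0 0 (by omega)) - c (ix 0 0 (by omega)) = e (ix 0 0 (by omega)) - c (ix 0 0 (by omega)) := hde
        omega
      funext i
      by_cases hi : i = ix 0 0 (by omega)
      · rw [hi]
        exact h5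
      · rw [(hS d hd).2 i (by simpa using hi), (hS e he).2 i (by simpa using hi)]

/-- from `family`: the smooth `G + pol d`, `d ∈ S`, near a fixed polynomial `G₀` -/
private theorem fam_card {n E j B H : ℕ} {G G₀ : MvPolynomial (Fin 2) ℤ}
    (hE : {p : MvPolynomial (Fin 2) ℤ × (Fin 2 → ℤ) | (p.1 - G₀).totalDegree ≤ n - 2 ∧ H12.ON.Smooth p.1 ∧
      eval p.2 p.1 = 0 ∧ ∃ H : ℕ, 2 ≤ H ∧ (∀ m, |p.1.coeff m| ≤ (H : ℤ)) ∧
        ∃ i, (H : ℤ) ^ E < |p.2 i|}.encard ≤ n)
    (hB : 2 ≤ B) (hH : 1 ≤ H) (hG : ∀ m, |G.coeff m| + 1 ≤ (B : ℤ)) (S : Finset (Ix j → ℤ))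
    (hS : ∀ c ∈ S, (∀ p, |c p| ≤ (H : ℤ)) ∧ H12.ON.Smooth (G + pol c) ∧ (G + pol c - G₀).totalDegree ≤ n - 2 ∧
      ∃ P : Fin 2 → ℤ, eval P (G + pol c) = 0 ∧ ∃ i, ((B * H : ℕ) : ℤ) ^ E < |P i|) : S.card ≤ n := by
  classical
  have hex : ∀ c ∈ S, ∃ P : Fin 2 → ℤ, eval P (G + pol c) = 0 ∧ ∃ i, ((B * H : ℕ) : ℤ) ^ E < |P i| :=
    fun c hc => (hS c hc).2.2.2
  choose! P hP using hex
  have hBH : 2 ≤ B * H := by nlinarith
  have h2 : ((S.image (fun c => (G + pol c, P c)) : Finset _) : Set (MvPolynomial (Fin 2) ℤ × (Fin 2 → ℤ))) ⊆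
      {p : MvPolynomial (Fin 2) ℤ × (Fin 2 → ℤ) | (p.1 - G₀).totalDegree ≤ n - 2 ∧ H12.ON.Smooth p.1 ∧
        eval p.2 p.1 = 0 ∧ ∃ H : ℕ, 2 ≤ H ∧ (∀ m, |p.1.coeff m| ≤ (H : ℤ)) ∧
          ∃ i, (H : ℤ) ^ E < |p.2 i|} := by
    intro p hp
    rw [Finset.mem_coe, Finset.mem_image] at hp
    obtain ⟨c, hc, rfl⟩ := hp
    exact ⟨(hS c hc).2.2.1, (hS c hc).2.1, (hP c hc).1, B * H, hBH, cf_le hB hH hG (hS c hc).1, (hP c hc).2⟩
  have h3 := (Set.encard_le_encard h2).trans hE
  rw [Set.encard_coe_eq_coe_finsetCard, Finset.card_image_of_injective] at h3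
  · exact_mod_cast h3
  · intro a b h
    exact pinj (add_left_cancel (Prod.ext_iff.1 h).1)

theorem lrg2 (n : ℕ) (hn : 4 ≤ n) : ∃ E : ℕ, ∀ (j : ℕ) (G : MvPolynomial (Fin 2) ℤ), Hyp n j G → ∃ C : ℝ, 0 ≤ C ∧
    ∀ (B H : ℕ), 2 ≤ B → (∀ m, |G.coeff m| + 1 ≤ (B : ℤ)) → 1 ≤ H → ∀ T : Finset (Ix j → ℤ),
    (∀ c ∈ T, (∀ p, |c p| ≤ (H : ℤ)) ∧ ∃ P : Fin 2 → ℤ, eval P (G + pol c) = 0 ∧ ∃ i, ((B * H : ℕ) : ℤ) ^ E < |P i|) →
    (T.card : ℝ) ≤ C * (2 * (H : ℝ) + 1) ^ (Fintype.card (Ix j) - 1) := by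
  classical
  obtain ⟨E, hE⟩ := H12.ON.family n hn
  refine ⟨E, fun j G hG => ⟨(((2 * n) ^ 2 + (n + 1) : ℕ) : ℝ), by positivity, ?_⟩⟩
  intro B H hB hGB hH T hT
  have hj := hG.hjn
  have hirr : ∀ c : Ix j → ℤ, Irreducible (map (Int.castRingHom ℚ) (homogeneousComponent n (G + pol c))) := by
    intro c
    rw [hcn hj]
    exact hG.irr
  obtain ⟨T₁, hT₁⟩ : ∃ T₁, T₁ = T.filter (fun c => ¬ H12.ON.Smooth (G + pol c)) := ⟨_, rfl⟩
  obtain ⟨T₂, hT₂⟩ : ∃ T₂, T₂ = T.filter (fun c => H12.ON.Smooth (G + pol c)) := ⟨_, rfl⟩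
  have hsum : T.card = T₂.card + T₁.card := by
    rw [hT₁, hT₂]
    exact (Finset.card_filter_add_card_filter_not _).symm
  have c1 : T₁.card ≤ (2 * n) ^ 2 * (2 * H + 1) ^ (Fintype.card (Ix j) - 1) := by
    refine sing hG T₁ (fun c hc => ?_)
    rw [hT₁] at hc
    obtain ⟨h1, h2⟩ := Finset.mem_filter.1 hc
    exact ⟨(hT c h1).1, h2⟩
  have h2T : ∀ c ∈ T₂, (∀ p, |c p| ≤ (H : ℤ)) ∧ H12.ON.Smooth (G + pol c) ∧
      ∃ P : Fin 2 → ℤ, eval P (G + pol c) = 0 ∧ ∃ i, ((B * H : ℕ) : ℤ) ^ E < |P i| := by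
    intro c hc
    rw [hT₂] at hc
    obtain ⟨h1, h2⟩ := Finset.mem_filter.1 hc
    exact ⟨(hT c h1).1, h2, (hT c h1).2⟩
  have hpos : 1 ≤ (2 * H + 1) ^ (Fintype.card (Ix j) - 1) := Nat.one_le_pow _ _ (by omega)
  have c2 : T₂.card ≤ (n + 1) * (2 * H + 1) ^ (Fintype.card (Ix j) - 1) := by
    rcases Nat.lt_or_ge (j + 1) n with hjn | hjn
    · -- `j + 2 ≤ n`
      have h1 : T₂.card ≤ n := by
        refine fam_card (hE G hG.deg hG.irr (hG.span (by omega))) hB hH hGB T₂ (fun c hc => ?_)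
        obtain ⟨k1, k2, k3⟩ := h2T c hc
        refine ⟨k1, k2, ?_, k3⟩
        rw [add_sub_cancel_left]
        exact (Pool.Agent.H8.AA.pol_deg c).trans (by omega)
      nlinarith
    · -- `j = n - 1`
      have hjn' : j + 1 = n := by omega
      obtain ⟨f, hf⟩ : ∃ f, f = map (Int.castRingHom ℚ) (homogeneousComponent n G) := ⟨_, rfl⟩
      obtain ⟨i, hi, hmono⟩ := ex_mono (n := n) (by omega) (pderiv 0 f) (pderiv 1 f)
      have hij : (n - 1 - i) + i ≤ j := by omega
      obtain ⟨Ta, hTa⟩ : ∃ Ta, Ta = T₂.filter (fun c => ∃ w : Fin 2 → ℚ,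
        map (Int.castRingHom ℚ) (homogeneousComponent (n - 1) (G + pol c)) = ∑ i, C (w i) * pderiv i f) := ⟨_, rfl⟩
      obtain ⟨Tb, hTb⟩ : ∃ Tb, Tb = T₂.filter (fun c => ¬ ∃ w : Fin 2 → ℚ,
        map (Int.castRingHom ℚ) (homogeneousComponent (n - 1) (G + pol c)) = ∑ i, C (w i) * pderiv i f) := ⟨_, rfl⟩
      have hsum2 : T₂.card = Ta.card + Tb.card := by
        rw [hTa, hTb]
        exact (Finset.card_filter_add_card_filter_not _).symm
      have ca : Ta.card ≤ 1 * (2 * H + 1) ^ (Fintype.card (Ix j) - 1) := by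
        have hmain := fib ({ix (n - 1 - i) i hij} : Finset (Ix j)) H 1 Ta (fun c hc => ?_) ?_
        · rw [Finset.card_singleton] at hmain
          exact hmain
        · rw [hTa] at hc
          exact (h2T c (Finset.mem_filter.1 hc).1).1
        · intro c hc S hS
          have hcS : ∀ d ∈ S, d = c := by
            intro d hd
            obtain ⟨hdT, hdc⟩ := hS d hd
            rw [hTa] at hc hdT
            obtain ⟨w, hw⟩ := (Finset.mem_filter.1 hc).2
            obtain ⟨w', hw'⟩ := (Finset.mem_filter.1 hdT).2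
            have hpa := pol_one (c := c) (d := d) (n - 1 - i) i hij (fun p hp => hdc p (by simpa using hp))
            obtain ⟨δ, hδ⟩ : ∃ δ, δ = d (ix (n - 1 - i) i hij) - c (ix (n - 1 - i) i hij) := ⟨_, rfl⟩
            rw [← hδ] at hpa
            have h7 : δ = 0 := by
              by_contra hne
              have h8 : homogeneousComponent (n - 1) (monomial (Finsupp.single 0 (n - 1 - i) + Finsupp.single 1 i : Fin 2 →₀ ℕ) δ) =
                  monomial (Finsupp.single 0 (n - 1 - i) + Finsupp.single 1 i) δ := by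
                ext m
                rw [coeff_homogeneousComponent]
                by_cases hm : Finsupp.single 0 (n - 1 - i) + Finsupp.single 1 i = m
                · rw [if_pos]
                  rw [← hm, deg2, (xe _ _).1, (xe _ _).2]
                  omega
                · rw [coeff_monomial, if_neg hm]
                  simp
              rw [hpa, ← add_assoc, map_add, h8, map_add, hw, map_monomial, Fin.sum_univ_two, Fin.sum_univ_two] at hw'
              have h9 : (Int.castRingHom ℚ) δ = (δ : ℚ) := rfl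
              rw [h9] at hw'
              have hq : (δ : ℚ) ≠ 0 := by exact_mod_cast hne
              refine hmono ((w' 0 - w 0) / δ) ((w' 1 - w 1) / δ) ?_
              have e1 : monomial (Finsupp.single 0 (n - 1 - i) + Finsupp.single 1 i : Fin 2 →₀ ℕ) (1 : ℚ) =
                  C ((δ : ℚ)⁻¹) * monomial (Finsupp.single 0 (n - 1 - i) + Finsupp.single 1 i) (δ : ℚ) := by
                rw [C_mul_monomial, inv_mul_cancel₀ hq]
              have e2 : monomial (Finsupp.single 0 (n - 1 - i) + Finsupp.single 1 i : Fin 2 →₀ ℕ) (δ : ℚ) =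
                  (C (w' 0) - C (w 0)) * pderiv 0 f + (C (w' 1) - C (w 1)) * pderiv 1 f := by
                linear_combination hw'
              rw [e1, e2, div_eq_inv_mul, div_eq_inv_mul, C_mul, C_mul, C_sub, C_sub]
              ring
            funext p
            by_cases hp : p = ix (n - 1 - i) i hij
            · rw [hp]
              rw [h7] at hδ
              omega
            · exact hdc p (by simpa using hp)
          exact Finset.card_le_one.2 (fun a ha b hb => by rw [hcS a ha, hcS b hb])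
      have cb : Tb.card ≤ n * (2 * H + 1) ^ (Fintype.card (Ix j) - 1) := by
        obtain ⟨J, hJ⟩ : ∃ J : Finset (Ix j), J = Finset.univ.filter fun p => p.1.1.val + p.1.2.val ≤ n - 2 := ⟨_, rfl⟩
        have hJ1 : 1 ≤ J.card := by
          rw [Nat.one_le_iff_ne_zero, Finset.card_ne_zero]
          exact ⟨ix 0 0 (by omega), by simp [hJ, ix]⟩
        have hmain := fib J H n Tb (fun c hc => ?_) ?_
        · refine hmain.trans (Nat.mul_le_mul_left _ (Nat.pow_le_pow_right (by omega) (by omega)))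
        · rw [hTb] at hc
          exact (h2T c (Finset.mem_filter.1 hc).1).1
        · intro c hc S hS
          rw [hTb] at hc
          obtain ⟨hc1, hc2⟩ := Finset.mem_filter.1 hc
          have hspan : ∀ w : Fin 2 → ℚ, map (Int.castRingHom ℚ) (homogeneousComponent (n - 1) (G + pol c)) ≠
              ∑ i, C (w i) * pderiv i (map (Int.castRingHom ℚ) (homogeneousComponent n (G + pol c))) := by
            intro w hw
            rw [hcn hj, ← hf] at hw
            exact hc2 ⟨w, hw⟩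
          refine fam_card (hE (G + pol c) (td_le hj hG.deg c) (hirr c) hspan) hB hH hGB S (fun d hd => ?_)
          obtain ⟨hdT, hdc⟩ := hS d hd
          rw [hTb] at hdT
          obtain ⟨k1, k2, k3⟩ := h2T d (Finset.mem_filter.1 hdT).1
          refine ⟨k1, k2, ?_, k3⟩
          rw [add_sub_add_left_eq_sub]
          unfold totalDegree
          refine Finset.sup_le fun m hm => ?_
          rw [mem_support_iff, coeff_sub, pol_coeff, pol_coeff] at hm
          rw [sum2]
          by_contra h8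
          apply hm
          by_cases h9 : m 0 + m 1 ≤ j
          · rw [co_of_le _ h9, co_of_le _ h9, hdc (ix (m 0) (m 1) h9), sub_self]
            intro h10
            rw [hJ, Finset.mem_filter] at h10
            exact h8 h10.2
          · unfold co
            rw [dif_neg h9, dif_neg h9, sub_self]
      calc T₂.card = Ta.card + Tb.card := hsum2
        _ ≤ 1 * (2 * H + 1) ^ (Fintype.card (Ix j) - 1) + n * (2 * H + 1) ^ (Fintype.card (Ix j) - 1) := Nat.add_le_add ca cb
        _ = (n + 1) * (2 * H + 1) ^ (Fintype.card (Ix j) - 1) := by ring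
  have h9 : T.card ≤ ((2 * n) ^ 2 + (n + 1)) * (2 * H + 1) ^ (Fintype.card (Ix j) - 1) := by
    rw [hsum, add_mul, add_comm]
    exact Nat.add_le_add c1 c2
  exact_mod_cast h9

end Pool.Agent.H88.A2
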