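import Pool.Agent.H88.A2.Med
import Pool.Agent.H88.A2.Gd
import Pool.Agent.H88.A2.Sml
import Pool.Agent.H88.A2.Lrg

/-! # [H88 A2 ASM] Assembly (helper88) -/

namespace Pool.Agent.H88.A2

open MvPolynomial Pool.Agent.H8.AA

/-- the hypothesis on the fixed part `G`, without the span condition -/
structure Hyp0 (n j : ℕ) (G : MvPolynomial (Fin 2) ℤ) : Prop where
  hn : 4 ≤ n
  hj : 1 ≤ j
  hjn : j < n
  deg : G.totalDegree ≤ n
  irr : Irreducible (MvPolynomial.map (Int.castRingHom ℚ) (MvPolynomial.homogeneousComponent n G))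

/-- the conclusion for the large range -/
def Lr (j : ℕ) (G : MvPolynomial (Fin 2) ℤ) : Prop :=
  ∃ E : ℕ, ∃ C : ℝ, 0 ≤ C ∧ ∀ (B H : ℕ), 2 ≤ B → (∀ m, |G.coeff m| + 1 ≤ (B : ℤ)) → 1 ≤ H → ∀ T : Finset (Ix j → ℤ),
    (∀ c ∈ T, (∀ p, |c p| ≤ (H : ℤ)) ∧ ∃ P : Fin 2 → ℤ, eval P (G + pol c) = 0 ∧ ∃ i, ((B * H : ℕ) : ℤ) ^ E < |P i|) →
    (T.card : ℝ) ≤ C * (2 * (H : ℝ) + 1) ^ (Fintype.card (Ix j) - 1)

theorem exists_bound (G : MvPolynomial (Fin 2) ℤ) : ∃ B : ℕ, 2 ≤ B ∧ ∀ m, |G.coeff m| + 1 ≤ (B : ℤ) := by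
  classical
  refine ⟨2 + ∑ m ∈ G.support, (G.coeff m).natAbs, by omega, fun m => ?_⟩
  by_cases hm : m ∈ G.support
  · have h1 : (G.coeff m).natAbs ≤ ∑ m ∈ G.support, (G.coeff m).natAbs :=
      Finset.single_le_sum (f := fun m => (G.coeff m).natAbs) (fun _ _ => Nat.zero_le _) hm
    have h2 : |G.coeff m| = ((G.coeff m).natAbs : ℤ) := Int.abs_eq_natAbs _
    rw [h2]
    push_cast
    have h3 : ((G.coeff m).natAbs : ℤ) ≤ ((∑ m ∈ G.support, (G.coeff m).natAbs : ℕ) : ℤ) := by exact_mod_cast h1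
    push_cast at h3
    linarith
  · rw [notMem_support_iff.1 hm]
    push_cast
    have h3 : (0 : ℤ) ≤ ((∑ m ∈ G.support, (G.coeff m).natAbs : ℕ) : ℤ) := Nat.cast_nonneg _
    push_cast at h3
    simp only [abs_zero]
    linarith

/-- change of the constant coefficient -/
theorem pol_const {j : ℕ} (c c' : Ix j → ℤ) (h : ∀ p, p ≠ ix 0 0 (by omega) → c p = c' p) :
    pol c = pol c' + C (c (ix 0 0 (by omega)) - c' (ix 0 0 (by omega))) := by
  rw [← sub_eq_iff_eq_add']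
  unfold pol
  rw [← Finset.sum_sub_distrib, Finset.sum_eq_single (ix 0 0 (by omega))]
  · rw [← map_sub]
    show monomial (Finsupp.single 0 0 + Finsupp.single 1 0) _ = _
    rw [Finsupp.single_zero, Finsupp.single_zero, add_zero]
    rfl
  · intro p _ hp
    rw [h p hp, sub_self]
  · intro hp
    exact absurd (Finset.mem_univ _) hp

theorem bs_of {n j : ℕ} {G : MvPolynomial (Fin 2) ℤ} (hjn : j < n) {B : ℕ} (hB : 2 ≤ B)
    (hG : ∀ m, |G.coeff m| + 1 ≤ (B : ℤ)) {H : ℕ} {S : ℝ} (hS : 1 ≤ S) (hHS : (H : ℝ) ≤ S ^ (n - j))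
    (c : Ix j → ℤ) (hc : ∀ p, |c p| ≤ (H : ℤ)) : Bs n B S (ar (G + pol c)) := by
  intro a b hab
  rw [ar_add, ar_pol]
  have h1 : |(ar G a b : ℝ)| ≤ (B : ℝ) - 1 := by
    have h2 : |ar G a b| + 1 ≤ (B : ℤ) := hG _
    have h3 : ((|ar G a b| + 1 : ℤ) : ℝ) ≤ ((B : ℤ) : ℝ) := by exact_mod_cast h2
    push_cast at h3
    linarith
  have hB' : (2 : ℝ) ≤ B := by exact_mod_cast hB
  have hp : 1 ≤ S ^ (n - a - b) := one_le_pow₀ hS
  push_cast
  by_cases h : a + b ≤ j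
  · rw [co_of_le c h]
    have h2 : |(c (ix a b h) : ℝ)| ≤ (H : ℝ) := by exact_mod_cast hc _
    have h3 : S ^ (n - j) ≤ S ^ (n - a - b) := pow_le_pow_right₀ hS (by omega)
    calc |(ar G a b : ℝ) + (c (ix a b h) : ℝ)| ≤ ((B : ℝ) - 1) + H := (abs_add_le _ _).trans (add_le_add h1 h2)
      _ ≤ ((B : ℝ) - 1) * S ^ (n - a - b) + S ^ (n - a - b) := by
          refine add_le_add ?_ (hHS.trans h3)
          nlinarith
      _ = B * S ^ (n - a - b) := by ring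
  · have h2 : co c a b = 0 := dif_neg h
    rw [h2]
    push_cast
    rw [add_zero]
    nlinarith

theorem mid (n j : ℕ) (G : MvPolynomial (Fin 2) ℤ) (h : Hyp0 n j G) (B : ℕ) (hB : 2 ≤ B)
    (hG : ∀ m, |G.coeff m| + 1 ≤ (B : ℤ)) : ∃ C K : ℝ, 0 ≤ C ∧ 1 ≤ K ∧ ∀ (H : ℕ) (S U : ℝ), 1 ≤ H → 1 ≤ S →
    (H : ℝ) ≤ S ^ (n - j) → (H : ℝ) ≤ S ^ (n - 2) → 1 ≤ U → ∀ T : Finset (Ix j → ℤ),
    (∀ c ∈ T, (∀ p, |c p| ≤ (H : ℤ)) ∧ ∃ P : Fin 2 → ℤ, eval P (G + pol c) = 0 ∧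
      K * S ≤ max |(P 0 : ℝ)| |(P 1 : ℝ)| ∧ max |(P 0 : ℝ)| |(P 1 : ℝ)| ≤ U) →
    (T.card : ℝ) ≤ C * S ^ (2 / 3 : ℝ) * (H : ℝ) ^ (1 / (n : ℝ)) * (1 + Real.log U) *
      (2 * (H : ℝ) + 1) ^ (Fintype.card (Ix j) - 1) := by
  classical
  have hB' : (2 : ℝ) ≤ (B : ℝ) := by exact_mod_cast hB
  have hn2 : 2 ≤ n := by have := h.hn; omega
  obtain ⟨A, hA, hg1, hg2⟩ := gd_of hn2 h.irr (B : ℝ) (by linarith)
  have hz := nz_of hn2 h.irr
  obtain ⟨C, K, hC, hK, hm⟩ := med2 n h.hn B A (by linarith) hA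
  refine ⟨C, K, hC, hK, ?_⟩
  intro H S U hH hS hHS hHS2 hU T hT
  set M : ℝ := C * S ^ (2 / 3 : ℝ) * (H : ℝ) ^ (1 / (n : ℝ)) * (1 + Real.log U) with hM
  have hS0 : (0 : ℝ) ≤ S := by linarith
  have hH0 : (0 : ℝ) ≤ (H : ℝ) := Nat.cast_nonneg _
  have hM0 : 0 ≤ M := by
    have h1 : 0 ≤ Real.log U := Real.log_nonneg hU
    have h2 : 0 ≤ S ^ (2 / 3 : ℝ) := Real.rpow_nonneg hS0 _
    have h3 : 0 ≤ (H : ℝ) ^ (1 / (n : ℝ)) := Real.rpow_nonneg hH0 _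
    rw [hM]
    positivity
  have key : T.card ≤ ⌊M⌋₊ * (2 * H + 1) ^ (Fintype.card (Ix j) - ({ix 0 0 (by omega)} : Finset (Ix j)).card) := by
    refine fib {ix 0 0 (by omega)} H ⌊M⌋₊ T (fun c hc => (hT c hc).1) ?_
    intro c _ T' hT'
    rcases T'.eq_empty_or_nonempty with rfl | ⟨c₀, hc₀⟩
    · simp
    -- the polynomial without its constant
    have hbox₀ := (hT c₀ (hT' c₀ hc₀).1).1
    set e : ℕ → ℕ → ℤ := ar (G + pol (Function.update c₀ (ix 0 0 (by omega)) 0)) with he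
    have hdeg : (G + pol (Function.update c₀ (ix 0 0 (by omega)) 0)).totalDegree ≤ n := by
      refine (totalDegree_add _ _).trans (max_le h.deg ((pol_deg _).trans h.hjn.le))
    have hbox : ∀ p, |Function.update c₀ (ix 0 0 (by omega)) 0 p| ≤ (H : ℤ) := by
      intro p
      by_cases hp : p = ix 0 0 (by omega)
      · rw [hp, Function.update_self]
        simp
      · rw [Function.update_of_ne hp]
        exact hbox₀ p
    have hBs : Bs n B S e := bs_of h.hjn hB hG hS hHS _ hbox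
    have htop : ∀ a b, a + b = n → ar G a b = e a b := by
      intro a b hab
      rw [he, ar_add, ar_pol]
      have h1 : ¬ a + b ≤ j := by have := h.hjn; omega
      have h2 : co (Function.update c₀ (ix 0 0 (by omega)) 0) a b = 0 := dif_neg h1
      rw [h2, add_zero]
    have hzE : Nz n e := nz_congr htop hz
    have hg1E : Gd n (B / A) e := gd_congr htop hg1
    have hg2E : Gd n (B / A) (sw e) := gd_congr (fun a b hab => htop b a (by omega)) hg2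
    -- the zeros
    have hP : ∀ c' : Ix j → ℤ, ∃ P : Fin 2 → ℤ, c' ∈ T' → eval P (G + pol c') = 0 ∧
        K * S ≤ max |(P 0 : ℝ)| |(P 1 : ℝ)| ∧ max |(P 0 : ℝ)| |(P 1 : ℝ)| ≤ U := by
      intro c'
      by_cases hc' : c' ∈ T'
      · obtain ⟨P, hP⟩ := (hT c' (hT' c' hc').1).2
        exact ⟨P, fun _ => hP⟩
      · exact ⟨0, fun h => absurd h hc'⟩
    choose P hP using hP
    have hval : ∀ c' ∈ T', ev n e (P c' 0) (P c' 1) = -c' (ix 0 0 (by omega)) := by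
      intro c' hc'
      have h1 := (hP c' hc').1
      have h2 : pol c' = pol (Function.update c₀ (ix 0 0 (by omega)) 0) +
          MvPolynomial.C (c' (ix 0 0 (by omega)) - Function.update c₀ (ix 0 0 (by omega)) 0 (ix 0 0 (by omega))) := by
        refine pol_const _ _ fun p hp => ?_
        rw [Function.update_of_ne hp]
        have h3 := (hT' c' hc').2 p (by simpa using hp)
        have h4 := (hT' c₀ hc₀).2 p (by simpa using hp)
        rw [h3, h4]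
      rw [Function.update_self, sub_zero] at h2
      rw [h2, ← add_assoc, map_add, eval_C] at h1
      rw [he, ar_ev hdeg]
      linarith
    have hinj : Set.InjOn (fun c' => (P c' 0, P c' 1)) (T' : Set (Ix j → ℤ)) := by
      intro c1 hc1 c2 hc2 h12
      have h3 : P c1 0 = P c2 0 := (Prod.mk.injEq _ _ _ _ ▸ h12 : _ ∧ _).1
      have h4 : P c1 1 = P c2 1 := (Prod.mk.injEq _ _ _ _ ▸ h12 : _ ∧ _).2
      have h5 := hval c1 hc1
      have h6 := hval c2 hc2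
      rw [h3, h4, h6] at h5
      funext p
      by_cases hp : p = ix 0 0 (by omega)
      · rw [hp]
        linarith
      · rw [(hT' c1 hc1).2 p (by simpa using hp), (hT' c2 hc2).2 p (by simpa using hp)]
    rw [← Finset.card_image_of_injOn hinj]
    apply Nat.le_floor
    refine hm e H S U hH hS hHS2 hU hBs hzE hg1E hg2E _ ?_
    intro Q hQ
    rw [Finset.mem_image] at hQ
    obtain ⟨c', hc', rfl⟩ := hQ
    refine ⟨?_, (hP c' hc').2.1, (hP c' hc').2.2⟩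
    rw [hval c' hc', abs_neg]
    exact (hT c' (hT' c' hc').1).1 _
  rw [Finset.card_singleton] at key
  calc (T.card : ℝ) ≤ ((⌊M⌋₊ * (2 * H + 1) ^ (Fintype.card (Ix j) - 1) : ℕ) : ℝ) := by exact_mod_cast key
    _ = (⌊M⌋₊ : ℝ) * (2 * (H : ℝ) + 1) ^ (Fintype.card (Ix j) - 1) := by push_cast; ring
    _ ≤ M * (2 * (H : ℝ) + 1) ^ (Fintype.card (Ix j) - 1) := by
        have := Nat.floor_le hM0
        gcongr

/-- the exponent of the scale -/
noncomputable def sx (n j : ℕ) : ℝ := if j + 1 = n then 1 else if j = 1 then 1 / ((n : ℝ) - 2) else 1 / 2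

/-- the exponent of the windows -/
noncomputable def ax (n j : ℕ) : ℝ := if j + 1 = n then 2 / 3 else 1 / 3

theorem sx_pos {n j : ℕ} (hn : 4 ≤ n) : 0 ≤ sx n j := by
  have hn' : (4 : ℝ) ≤ n := by exact_mod_cast hn
  unfold sx
  split_ifs
  · norm_num
  · have : 0 < (n : ℝ) - 2 := by linarith
    positivity
  · norm_num

theorem sx_le {n j : ℕ} (hn : 4 ≤ n) : sx n j ≤ 1 := by
  have hn' : (4 : ℝ) ≤ n := by exact_mod_cast hn
  unfold sx
  split_ifs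
  · exact le_refl _
  · rw [div_le_one (by linarith)]
    linarith
  · norm_num

theorem sx_a {n j : ℕ} (hn : 4 ≤ n) : sx n j * (2 / 3) ≤ ax n j := by
  have hn' : (4 : ℝ) ≤ n := by exact_mod_cast hn
  unfold sx ax
  split_ifs
  · norm_num
  · have h1 : 1 / ((n : ℝ) - 2) ≤ 1 / 2 := one_div_le_one_div_of_le (by norm_num) (by linarith)
    linarith
  · norm_num

theorem sx_two {n j : ℕ} (hn : 4 ≤ n) : 1 ≤ sx n j * ((n - 2 : ℕ) : ℝ) := by
  have hn' : (4 : ℝ) ≤ n := by exact_mod_cast hn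
  rw [Nat.cast_sub (by omega)]
  push_cast
  unfold sx
  split_ifs
  · linarith
  · have : (n : ℝ) - 2 ≠ 0 := by linarith
    rw [one_div, inv_mul_cancel₀ this]
  · linarith

theorem sx_j {n j : ℕ} (hn : 4 ≤ n) (hj : 1 ≤ j) (hjn : j < n) : 1 ≤ sx n j * ((n - j : ℕ) : ℝ) := by
  have hn' : (4 : ℝ) ≤ n := by exact_mod_cast hn
  unfold sx
  split_ifs with h1 h2
  · have : n - j = 1 := by omega
    rw [this]
    norm_num
  · have h3 : ((n - j : ℕ) : ℝ) = (n : ℝ) - 1 := by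
      rw [h2, Nat.cast_sub (by omega)]
      push_cast
      ring
    rw [h3, one_div, ← div_eq_inv_mul, le_div_iff₀ (by linarith)]
    linarith
  · have h3 : (2 : ℝ) ≤ ((n - j : ℕ) : ℝ) := by
      have : 2 ≤ n - j := by omega
      exact_mod_cast this
    linarith

theorem sx_one {n : ℕ} (hn : 4 ≤ n) : sx n 1 ≤ ax n 1 + 1 / (n : ℝ) := by
  have hn' : (4 : ℝ) ≤ n := by exact_mod_cast hn
  have h1 : ¬ 1 + 1 = n := by omega
  unfold sx ax
  rw [if_neg h1, if_pos rfl, if_neg h1]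
  rw [div_add_div _ _ (by norm_num) (by linarith), div_le_div_iff₀ (by linarith) (by linarith)]
  nlinarith

theorem ax_pos (n j : ℕ) : 0 ≤ ax n j := by
  unfold ax
  split_ifs <;> norm_num

theorem main0 (n j : ℕ) (G : MvPolynomial (Fin 2) ℤ) (h : Hyp0 n j G) (hE : Lr j G) : ∃ C : ℝ, ∀ H : ℕ, 1 ≤ H →
    (Set.ncard {L : MvPolynomial (Fin 2) ℤ | L.totalDegree ≤ j ∧ (∀ m, |L.coeff m| ≤ (H : ℤ)) ∧
      ∃ P : Fin 2 → ℤ, eval P (G + L) = 0} : ℝ) ≤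
      C * (H : ℝ) ^ ((((j + 1) * (j + 2) / 2 : ℕ) : ℝ) - (if j + 1 = n then 1 / 3 else 2 / 3) + 1 / (n : ℝ)) *
        (1 + Real.log H) := by
  classical
  have hn := h.hn
  have hj := h.hj
  have hjn := h.hjn
  obtain ⟨B, hB, hGB⟩ := exists_bound G
  obtain ⟨E, C3, hC3, hlrg⟩ := hE
  obtain ⟨C2, K, hC2, hK, hmid⟩ := mid n j G h B hB hGB
  obtain ⟨C1, hC1, hsml⟩ := sml2 j hj K hK
  have hB' : (2 : ℝ) ≤ (B : ℝ) := by exact_mod_cast hB
  have hlB : 0 ≤ Real.log B := Real.log_nonneg (by linarith)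
  obtain ⟨D, hD⟩ : ∃ D : ℝ, D = 1 + E * (Real.log B + 1) := ⟨_, rfl⟩
  have hD0 : 1 ≤ D := by
    rw [hD]
    have : 0 ≤ (E : ℝ) * (Real.log B + 1) := by positivity
    linarith
  obtain ⟨M, hM⟩ : ∃ M : ℕ, M = Fintype.card (Ix j) := ⟨_, rfl⟩
  have hM1 : (j + 1) * (j + 2) / 2 = M := by rw [hM, card_ix]
  have hMpos : 1 ≤ M := by
    rw [← hM1]
    have : 2 ≤ (j + 1) * (j + 2) := by nlinarith
    omega
  refine ⟨(C1 + C2 * D + C3) * 3 ^ (M - 1), ?_⟩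
  intro H hH
  have hH' : (1 : ℝ) ≤ (H : ℝ) := by exact_mod_cast hH
  have hH0 : (0 : ℝ) < (H : ℝ) := by linarith
  have hlH : 0 ≤ Real.log H := Real.log_nonneg hH'
  obtain ⟨S, hS⟩ : ∃ S : ℝ, S = (H : ℝ) ^ sx n j := ⟨_, rfl⟩
  have hS1 : 1 ≤ S := by rw [hS]; exact Real.one_le_rpow hH' (sx_pos hn)
  have hSH : S ≤ H := by
    rw [hS]
    calc (H : ℝ) ^ sx n j ≤ (H : ℝ) ^ (1 : ℝ) := Real.rpow_le_rpow_of_exponent_le hH' (sx_le hn)
      _ = H := Real.rpow_one _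
  have hpow : ∀ m : ℕ, 1 ≤ sx n j * (m : ℝ) → (H : ℝ) ≤ S ^ m := by
    intro m hm
    rw [hS, ← Real.rpow_natCast, ← Real.rpow_mul hH0.le]
    calc (H : ℝ) = (H : ℝ) ^ (1 : ℝ) := (Real.rpow_one _).symm
      _ ≤ _ := Real.rpow_le_rpow_of_exponent_le hH' hm
  have hHS := hpow (n - j) (sx_j hn hj hjn)
  have hHS2 := hpow (n - 2) (sx_two hn)
  obtain ⟨α, hα⟩ : ∃ α : ℝ, α = ax n j + 1 / (n : ℝ) := ⟨_, rfl⟩
  have hα0 : 0 ≤ α := by
    rw [hα]
    have := ax_pos n j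
    positivity
  have hHα : 1 ≤ (H : ℝ) ^ α := Real.one_le_rpow hH' hα0
  have hS23 : S ^ (2 / 3 : ℝ) * (H : ℝ) ^ (1 / (n : ℝ)) ≤ (H : ℝ) ^ α := by
    rw [hS, ← Real.rpow_mul hH0.le, ← Real.rpow_add hH0, hα]
    exact Real.rpow_le_rpow_of_exponent_le hH' (by linarith [sx_a (j := j) hn])
  have hif : (if j = 1 then S else 1 + Real.log S) ≤ (H : ℝ) ^ α * (1 + Real.log H) := by
    split_ifs with h1
    · have h2 : S ≤ (H : ℝ) ^ α := by
        rw [hS, hα, h1]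
        exact Real.rpow_le_rpow_of_exponent_le hH' (sx_one hn)
      nlinarith
    · have h2 : Real.log S ≤ Real.log H := Real.log_le_log (by linarith) hSH
      nlinarith
  -- the upper end of the middle range
  obtain ⟨U, hU⟩ : ∃ U : ℝ, U = (((B * H : ℕ) : ℝ)) ^ E := ⟨_, rfl⟩
  have hBH : (1 : ℝ) ≤ ((B * H : ℕ) : ℝ) := by
    push_cast
    nlinarith
  have hU1 : 1 ≤ U := by rw [hU]; exact one_le_pow₀ hBH
  have hlU : 1 + Real.log U ≤ D * (1 + Real.log H) := by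
    rw [hU, Real.log_pow]
    push_cast
    rw [Real.log_mul (by linarith) hH0.ne', hD]
    have hE0 : (0 : ℝ) ≤ E := Nat.cast_nonneg _
    nlinarith [mul_nonneg hE0 hlB, mul_nonneg hE0 hlH, mul_nonneg (mul_nonneg hE0 hlB) hlH]
  -- the sets
  obtain ⟨T, hT⟩ : ∃ T : Finset (Ix j → ℤ), T = (box j H).filter (fun c => ∃ P : Fin 2 → ℤ, eval P (G + pol c) = 0) := ⟨_, rfl⟩
  have hcard : Set.ncard {L : MvPolynomial (Fin 2) ℤ | L.totalDegree ≤ j ∧ (∀ m, |L.coeff m| ≤ (H : ℤ)) ∧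
      ∃ P : Fin 2 → ℤ, eval P (G + L) = 0} = T.card := by
    rw [pol_set j H (fun L => ∃ P : Fin 2 → ℤ, eval P (G + L) = 0), ← Set.ncard_coe_finset, hT]
    congr 1
    ext c
    simp
  obtain ⟨T1, hT1⟩ : ∃ T1 : Finset (Ix j → ℤ), T1 = T.filter (fun c => ∃ P : Fin 2 → ℤ, eval P (G + pol c) = 0 ∧
      max |(P 0 : ℝ)| |(P 1 : ℝ)| ≤ K * S) := ⟨_, rfl⟩
  obtain ⟨T2, hT2⟩ : ∃ T2 : Finset (Ix j → ℤ), T2 = T.filter (fun c => ∃ P : Fin 2 → ℤ, eval P (G + pol c) = 0 ∧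
      K * S ≤ max |(P 0 : ℝ)| |(P 1 : ℝ)| ∧ max |(P 0 : ℝ)| |(P 1 : ℝ)| ≤ U) := ⟨_, rfl⟩
  obtain ⟨T3, hT3⟩ : ∃ T3 : Finset (Ix j → ℤ), T3 = T.filter (fun c => ∃ P : Fin 2 → ℤ, eval P (G + pol c) = 0 ∧
      ∃ i, ((B * H : ℕ) : ℤ) ^ E < |P i|) := ⟨_, rfl⟩
  have hbox : ∀ c ∈ T, ∀ p, |c p| ≤ (H : ℤ) := by
    intro c hc
    rw [hT, Finset.mem_filter] at hc
    exact mem_box.1 hc.1
  have hsub : T ⊆ T1 ∪ T2 ∪ T3 := by
    intro c hc
    have hc' := hc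
    rw [hT, Finset.mem_filter] at hc'
    obtain ⟨P, hP⟩ := hc'.2
    rw [Finset.mem_union, Finset.mem_union, hT1, hT2, hT3, Finset.mem_filter, Finset.mem_filter, Finset.mem_filter]
    rcases le_or_gt (max |(P 0 : ℝ)| |(P 1 : ℝ)|) (K * S) with h1 | h1
    · exact Or.inl (Or.inl ⟨hc, P, hP, h1⟩)
    rcases le_or_gt (max |(P 0 : ℝ)| |(P 1 : ℝ)|) U with h2 | h2
    · exact Or.inl (Or.inr ⟨hc, P, hP, h1.le, h2⟩)
    · refine Or.inr ⟨hc, P, hP, ?_⟩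
      rcases lt_max_iff.1 h2 with h3 | h3
      · refine ⟨0, ?_⟩
        rw [hU] at h3
        exact_mod_cast h3
      · refine ⟨1, ?_⟩
        rw [hU] at h3
        exact_mod_cast h3
  have hcT : (T.card : ℝ) ≤ (T1.card : ℝ) + T2.card + T3.card := by
    have h1 := Finset.card_le_card hsub
    have h2 := Finset.card_union_le (T1 ∪ T2) T3
    have h3 := Finset.card_union_le T1 T2
    have h4 : T.card ≤ T1.card + T2.card + T3.card := by omega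
    exact_mod_cast h4
  obtain ⟨V, hV⟩ : ∃ V : ℝ, V = (2 * (H : ℝ) + 1) ^ (M - 1) := ⟨_, rfl⟩
  have hV0 : 0 ≤ V := by rw [hV]; positivity
  have hc1 : (T1.card : ℝ) ≤ C1 * V * ((H : ℝ) ^ α * (1 + Real.log H)) := by
    have h1 := hsml H S hH hS1 hSH (fun x y => eval ![x, y] G) T1 (by
      intro c hc
      rw [hT1, Finset.mem_filter] at hc
      refine ⟨hbox c hc.1, ?_⟩
      obtain ⟨P, hP, hP'⟩ := hc.2
      refine ⟨P 0, P 1, hP', ?_⟩
      have h2 : ![P 0, P 1] = P := by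
        funext i
        fin_cases i <;> rfl
      have h3 := ar_ev (pol_deg c) P
      rw [ar_pol] at h3
      show eval ![P 0, P 1] G + ev j (co c) (P 0) (P 1) = 0
      rw [h2, h3, ← map_add]
      exact hP)
    rw [← hM, ← hV] at h1
    refine h1.trans ?_
    gcongr
  have hc2 : (T2.card : ℝ) ≤ C2 * D * V * ((H : ℝ) ^ α * (1 + Real.log H)) := by
    have h1 := hmid H S U hH hS1 hHS hHS2 hU1 T2 (by
      intro c hc
      rw [hT2, Finset.mem_filter] at hc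
      exact ⟨hbox c hc.1, hc.2⟩)
    rw [← hM, ← hV] at h1
    refine h1.trans ?_
    have hlU0 : 0 ≤ Real.log U := Real.log_nonneg hU1
    calc C2 * S ^ (2 / 3 : ℝ) * (H : ℝ) ^ (1 / (n : ℝ)) * (1 + Real.log U) * V
        = C2 * (S ^ (2 / 3 : ℝ) * (H : ℝ) ^ (1 / (n : ℝ))) * (1 + Real.log U) * V := by ring
      _ ≤ C2 * (H : ℝ) ^ α * (D * (1 + Real.log H)) * V := by gcongr
      _ = _ := by ring
  have hc3 : (T3.card : ℝ) ≤ C3 * V * ((H : ℝ) ^ α * (1 + Real.log H)) := by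
    have h1 := hlrg B H hB hGB hH T3 (by
      intro c hc
      rw [hT3, Finset.mem_filter] at hc
      exact ⟨hbox c hc.1, hc.2⟩)
    rw [← hM, ← hV] at h1
    refine h1.trans ?_
    have h2 : 1 ≤ (H : ℝ) ^ α * (1 + Real.log H) := by nlinarith
    calc C3 * V = C3 * V * 1 := (mul_one _).symm
      _ ≤ _ := mul_le_mul_of_nonneg_left h2 (mul_nonneg hC3 hV0)
  have hVH : V ≤ 3 ^ (M - 1) * (H : ℝ) ^ (((M - 1 : ℕ) : ℝ)) := by
    rw [hV, Real.rpow_natCast, ← mul_pow]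
    exact pow_le_pow_left₀ (by positivity) (by linarith) _
  have hexp : (H : ℝ) ^ ((((j + 1) * (j + 2) / 2 : ℕ) : ℝ) - (if j + 1 = n then 1 / 3 else 2 / 3) + 1 / (n : ℝ)) =
      (H : ℝ) ^ (((M - 1 : ℕ) : ℝ)) * (H : ℝ) ^ α := by
    rw [← Real.rpow_add hH0, hM1, hα]
    congr 1
    rw [Nat.cast_sub hMpos]
    unfold ax
    push_cast
    split_ifs <;> ring
  rw [hcard, hexp]
  calc (T.card : ℝ) ≤ C1 * V * ((H : ℝ) ^ α * (1 + Real.log H)) + C2 * D * V * ((H : ℝ) ^ α * (1 + Real.log H)) +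
        C3 * V * ((H : ℝ) ^ α * (1 + Real.log H)) := hcT.trans (add_le_add (add_le_add hc1 hc2) hc3)
    _ = (C1 + C2 * D + C3) * V * ((H : ℝ) ^ α * (1 + Real.log H)) := by ring
    _ ≤ (C1 + C2 * D + C3) * (3 ^ (M - 1) * (H : ℝ) ^ (((M - 1 : ℕ) : ℝ))) * ((H : ℝ) ^ α * (1 + Real.log H)) := by
        gcongr
    _ = _ := by ring

theorem main2 (n j : ℕ) (G : MvPolynomial (Fin 2) ℤ) (h : Hyp n j G) : ∃ C : ℝ, ∀ H : ℕ, 1 ≤ H →
    (Set.ncard {L : MvPolynomial (Fin 2) ℤ | L.totalDegree ≤ j ∧ (∀ m, |L.coeff m| ≤ (H : ℤ)) ∧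
      ∃ P : Fin 2 → ℤ, eval P (G + L) = 0} : ℝ) ≤
      C * (H : ℝ) ^ ((((j + 1) * (j + 2) / 2 : ℕ) : ℝ) - (if j + 1 = n then 1 / 3 else 2 / 3) + 1 / (n : ℝ)) *
        (1 + Real.log H) := by
  refine main0 n j G ⟨h.hn, h.hj, h.hjn, h.deg, h.irr⟩ ?_
  obtain ⟨E, hE⟩ := lrg2 n h.hn
  obtain ⟨C3, hC3, hlrg⟩ := hE j G h
  exact ⟨E, C3, hC3, hlrg⟩

end Pool.Agent.H88.A2
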