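import Pool.Agent.H12.ON.Fam

/-! # [H88 A2 SPB] The part of degree `n - 1` is `v . grad f`: no homothety, and two curves of a pencil

`F` of degree `n`, leading form `f` irreducible over `ℚ`, part of degree `n - 1` equal to `v . grad f`. `nohs`: if `F(-v)`, `F_x(-v)` are
not zero, then `F(w + z X) = z^n F(w + X)` only for `z = 1`. `penc`: `F₂ = F₁ + τ`, `F₂(w + a X) = c F₁(X)` and `F_x(-v) ≠ 0` imply
`F₁ = F₂` or `F₂(-v) = - F₁(-v)`. -/

namespace Pool.Agent.H88.A2

open MvPolynomial Pool.Agent.H12.ON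

/-- the chain rule -/
theorem sp_chain {R K : Type} [CommRing R] [CommRing K] [Algebra R K] (w : Fin 2 → K) (z : K)
    (F : MvPolynomial (Fin 2) R) :
    pderiv 0 (aeval (fun i => C (w i) + C z * X i : Fin 2 → MvPolynomial (Fin 2) K) F) =
      C z * aeval (fun i => C (w i) + C z * X i : Fin 2 → MvPolynomial (Fin 2) K) (pderiv 0 F) := by
  induction F using MvPolynomial.induction_on with
  | C a =>
    rw [pderiv_C, map_zero, mul_zero, aeval_C, IsScalarTower.algebraMap_apply R K (MvPolynomial (Fin 2) K),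
      MvPolynomial.algebraMap_eq, pderiv_C]
  | add p q hp hq => rw [map_add, map_add, map_add, map_add, hp, hq, mul_add]
  | mul_X p i hp =>
    have h1 : pderiv 0 (C (w i) + C z * X i : MvPolynomial (Fin 2) K) =
        C z * aeval (fun i => C (w i) + C z * X i : Fin 2 → MvPolynomial (Fin 2) K) (pderiv 0 (X i : MvPolynomial (Fin 2) R)) := by
      rw [map_add, pderiv_C, zero_add, pderiv_mul, pderiv_C, zero_mul, zero_add]
      by_cases hi : i = 0
      · subst hi
        rw [pderiv_X_self, pderiv_X_self, map_one]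
      · rw [pderiv_X_of_ne hi, pderiv_X_of_ne hi, map_zero]
    have e1 : aeval (fun i => C (w i) + C z * X i : Fin 2 → MvPolynomial (Fin 2) K) (p * X i) =
        aeval (fun i => C (w i) + C z * X i : Fin 2 → MvPolynomial (Fin 2) K) p * (C (w i) + C z * X i) := by
      rw [map_mul, aeval_X]
    have e2 : pderiv 0 (p * X i) = pderiv 0 p * X i + p * pderiv 0 (X i : MvPolynomial (Fin 2) R) := pderiv_mul
    have e3 : aeval (fun i => C (w i) + C z * X i : Fin 2 → MvPolynomial (Fin 2) K)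
        (pderiv 0 p * X i + p * pderiv 0 (X i : MvPolynomial (Fin 2) R)) =
        aeval (fun i => C (w i) + C z * X i : Fin 2 → MvPolynomial (Fin 2) K) (pderiv 0 p) * (C (w i) + C z * X i) +
        aeval (fun i => C (w i) + C z * X i : Fin 2 → MvPolynomial (Fin 2) K) p *
          aeval (fun i => C (w i) + C z * X i : Fin 2 → MvPolynomial (Fin 2) K) (pderiv 0 (X i : MvPolynomial (Fin 2) R)) := by
      rw [map_add, map_mul, map_mul, aeval_X]
    rw [e1, pderiv_mul, hp, e2, e3, h1]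
    ring

private theorem hc_map' {R S : Type} [CommRing R] [CommRing S] (φ : R →+* S) (j : ℕ) (P : MvPolynomial (Fin 2) R) :
    homogeneousComponent j (map φ P) = map φ (homogeneousComponent j P) := by
  ext d
  rw [coeff_homogeneousComponent, coeff_map, coeff_map, coeff_homogeneousComponent]
  split_ifs
  · rfl
  · rw [map_zero]

/-- `u . grad f = 0` over `ℂ` only for `u = 0` -/
private theorem grad_c {n : ℕ} (hn : 2 ≤ n) {f : MvPolynomial (Fin 2) ℚ} (hf : Irreducible f) (hh : f.IsHomogeneous n)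
    {u : Fin 2 → ℂ} (h : ∑ i, C (u i) * pderiv i (map (algebraMap ℚ ℂ) f) = 0) : u = 0 := by
  by_contra hu
  obtain ⟨i₀, hi₀⟩ := Function.ne_iff.1 hu
  obtain ⟨φ, hφ⟩ : ∃ φ : Module.Dual ℚ ℂ, φ (u i₀) ≠ 0 := by
    by_contra hcon
    push Not at hcon
    exact hi₀ ((Module.forall_dual_apply_eq_zero_iff ℚ (u i₀)).1 hcon)
  have h1 : ∑ i, C (φ (u i)) * pderiv i f = 0 := by
    ext d
    have h2 := congrArg (coeff d) h
    rw [coeff_sum, coeff_zero] at h2 ⊢
    have h3 : ∀ i, coeff d (C (u i) * pderiv i (map (algebraMap ℚ ℂ) f)) = (coeff d (pderiv i f)) • (u i) := by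
      intro i
      rw [coeff_C_mul, pderiv_map, coeff_map, Algebra.smul_def, mul_comm]
    simp only [h3] at h2
    have h4 := congrArg φ h2
    rw [map_sum, map_zero] at h4
    rw [← h4]
    refine Finset.sum_congr rfl fun i _ => ?_
    rw [coeff_C_mul, map_smul, smul_eq_mul, mul_comm]
  have h2 := grad_ne hn hf hh h1
  exact hφ (congrFun h2 i₀)

theorem nohs {n : ℕ} (hn : 3 ≤ n) {F : MvPolynomial (Fin 2) ℤ} (hF : F.totalDegree ≤ n)
    (hirr : Irreducible (map (Int.castRingHom ℚ) (homogeneousComponent n F))) (v : Fin 2 → ℚ)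
    (hv : map (Int.castRingHom ℚ) (homogeneousComponent (n - 1) F) =
      ∑ i, C (v i) * pderiv i (map (Int.castRingHom ℚ) (homogeneousComponent n F)))
    (h0 : aeval (fun i => - v i) F ≠ (0 : ℚ)) (h1 : aeval (fun i => - v i) (pderiv 0 F) ≠ (0 : ℚ))
    (w : Fin 2 → ℂ) (z : ℂ) (hz : z ≠ 0)
    (e : aeval (fun i => C (w i) + C z * X i : Fin 2 → MvPolynomial (Fin 2) ℂ) F =
      C (z ^ n) * aeval (fun i => C (w i) + X i : Fin 2 → MvPolynomial (Fin 2) ℂ) F) : z = 1 := by
  obtain ⟨m, rfl⟩ : ∃ m, n = m + 1 := ⟨n - 1, by omega⟩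
  rw [Nat.add_sub_cancel] at hv
  by_contra hz1
  obtain ⟨FC, hFC⟩ : ∃ FC, FC = map (Int.castRingHom ℂ) F := ⟨_, rfl⟩
  have hFCd : FC.totalDegree ≤ m + 1 := by
    rw [hFC]
    exact (Finset.sup_mono (support_map_subset _ _)).trans hF
  have hev : ∀ x : Fin 2 → MvPolynomial (Fin 2) ℂ, aeval x F = aeval x FC := by
    intro x
    rw [hFC]
    exact (aeval_map_algebraMap ℂ x F).symm
  have e1 := shift_comp hFCd w z
  have e2 := shift_comp hFCd w 1
  rw [map_one] at e2
  simp only [one_mul, one_pow, map_one] at e2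
  have e' := e
  rw [hev, hev] at e
  rw [e, homogeneousComponent_C_mul, e2] at e1
  obtain ⟨h, hh⟩ : ∃ h, h = homogeneousComponent m FC + ∑ i, C (w i) * pderiv i (homogeneousComponent (m + 1) FC) :=
    ⟨_, rfl⟩
  rw [← hh] at e1
  have hz0 : h = 0 := by
    have h2 : C (z ^ m * (z - 1)) * h = 0 := by
      have h3 : (C (z ^ m * (z - 1)) : MvPolynomial (Fin 2) ℂ) = C (z ^ (m + 1)) - C (z ^ m) := by
        rw [← C_sub]
        congr 1
        ring
      rw [h3, sub_mul, e1, sub_self]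
    rcases mul_eq_zero.1 h2 with h4 | h4
    · rw [C_eq_zero] at h4
      rcases mul_eq_zero.1 h4 with h5 | h5
      · exact absurd h5 (pow_ne_zero _ hz)
      · exact absurd (sub_eq_zero.1 h5) hz1
    · exact h4
  obtain ⟨f, hf⟩ : ∃ f, f = map (Int.castRingHom ℚ) (homogeneousComponent (m + 1) F) := ⟨_, rfl⟩
  have hcomp : (algebraMap ℚ ℂ).comp (Int.castRingHom ℚ) = Int.castRingHom ℂ := RingHom.ext_int _ _
  have hfC : homogeneousComponent (m + 1) FC = map (algebraMap ℚ ℂ) f := by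
    rw [hFC, hc_map', hf, map_map, hcomp]
  have hgC : homogeneousComponent m FC = ∑ i, C ((v i : ℂ)) * pderiv i (map (algebraMap ℚ ℂ) f) := by
    rw [hFC, hc_map', ← hcomp, ← map_map, hv, map_sum]
    refine Finset.sum_congr rfl fun i _ => ?_
    rw [← hf, map_mul, map_C, ← pderiv_map]
    rfl
  have hu : (fun i => (v i : ℂ) + w i) = 0 := by
    refine grad_c (by omega : 2 ≤ m + 1) (hf ▸ hirr) ?_ ?_
    · rw [hf]
      exact (homogeneousComponent_isHomogeneous _ _).map _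
    · rw [hz0, hgC, hfC, ← Finset.sum_add_distrib] at hh
      rw [hh]
      refine Finset.sum_congr rfl fun i _ => ?_
      rw [C_add, add_mul]
  have hw : w = fun i => algebraMap ℚ ℂ (- v i) := by
    funext i
    have := congrFun hu i
    simp only [Pi.zero_apply] at this
    rw [map_neg]
    exact eq_neg_of_add_eq_zero_right this
  -- values
  have hval : ∀ P : MvPolynomial (Fin 2) ℤ, aeval (fun i => - v i) P ≠ (0 : ℚ) → aeval w P ≠ (0 : ℂ) := by
    intro P hP hc
    apply hP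
    have h2 : algebraMap ℚ ℂ (aeval (fun i => - v i) P) = aeval w P := by
      rw [hw]
      have := (MvPolynomial.map_aeval (fun i => - v i) ((algebraMap ℚ ℂ)) P)
      rw [this, aeval_def]
      congr 1
    rw [hc] at h2
    exact (map_eq_zero _).1 h2
  obtain ⟨ψ, hψ⟩ : ∃ ψ : MvPolynomial (Fin 2) ℂ →ₐ[ℂ] ℂ, ψ = aeval (fun _ => (0 : ℂ)) := ⟨_, rfl⟩
  have hψ1 : ∀ (g : Fin 2 → MvPolynomial (Fin 2) ℂ) (P : MvPolynomial (Fin 2) ℤ), ψ (aeval g P) = aeval (fun i => ψ (g i)) P := by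
    intro g P
    have h3 : ((ψ.restrictScalars ℤ).comp (aeval g) : MvPolynomial (Fin 2) ℤ →ₐ[ℤ] ℂ) = aeval (fun i => ψ (g i)) := by
      rw [comp_aeval]
      rfl
    exact DFunLike.congr_fun h3 P
  have hψ2 : (fun i => ψ (C (w i) + C z * X i)) = w := by
    funext i
    rw [hψ]
    simp
  have hψ3 : (fun i => ψ (C (w i) + C 1 * X i)) = w := by
    funext i
    rw [hψ]
    simp
  have hψC : ∀ a : ℂ, ψ (C a) = a := by
    intro a
    rw [hψ]
    simp
  have e1' : (fun i => C (w i) + X i : Fin 2 → MvPolynomial (Fin 2) ℂ) = fun i => C (w i) + C 1 * X i := by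
    funext i
    rw [C_1, one_mul]
  rw [e1'] at e'
  have k1 := congrArg ψ e'
  rw [map_mul, hψ1, hψ1, hψ2, hψ3, hψC] at k1
  have k2 := congrArg (fun P => ψ (pderiv 0 P)) e'
  rw [pderiv_C_mul, sp_chain, sp_chain, map_mul, map_mul, map_mul, hψ1, hψ1, hψ2, hψ3, hψC, hψC, hψC, one_mul] at k2
  have a1 : z ^ (m + 1) = 1 := by
    have h3 := hval F h0
    have h4 : (z ^ (m + 1) - 1) * aeval w F = 0 := by linear_combination -k1
    rcases mul_eq_zero.1 h4 with h5 | h5
    · exact sub_eq_zero.1 h5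
    · exact absurd h5 h3
  have a2 : z = z ^ (m + 1) := mul_right_cancel₀ (hval _ h1) k2
  exact hz1 (a2.trans a1)

theorem penc {n : ℕ} (hn : 3 ≤ n) {F₁ F₂ : MvPolynomial (Fin 2) ℤ} {τ : ℤ} (hτ : F₂ = F₁ + C τ) (hF : F₁.totalDegree ≤ n)
    (hirr : Irreducible (map (Int.castRingHom ℚ) (homogeneousComponent n F₁))) (v : Fin 2 → ℚ)
    (hv : map (Int.castRingHom ℚ) (homogeneousComponent (n - 1) F₁) =
      ∑ i, C (v i) * pderiv i (map (Int.castRingHom ℚ) (homogeneousComponent n F₁)))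
    (h1 : aeval (fun i => - v i) (pderiv 0 F₁) ≠ (0 : ℚ)) {a c : ℚ} {w : Fin 2 → ℚ} (ha : a ≠ 0)
    (e : aeval (fun i => C (w i) + C a * X i : Fin 2 → MvPolynomial (Fin 2) ℚ) (map (Int.castRingHom ℚ) F₂) =
      C c * map (Int.castRingHom ℚ) F₁) :
    F₁ = F₂ ∨ aeval (fun i => - v i) F₂ = - (aeval (fun i => - v i) F₁ : ℚ) := by
  obtain ⟨m, rfl⟩ : ∃ m, n = m + 1 := ⟨n - 1, by omega⟩
  rw [Nat.add_sub_cancel] at hv
  obtain ⟨Q₁, hQ₁⟩ : ∃ Q₁, Q₁ = map (Int.castRingHom ℚ) F₁ := ⟨_, rfl⟩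
  obtain ⟨Q₂, hQ₂⟩ : ∃ Q₂, Q₂ = map (Int.castRingHom ℚ) F₂ := ⟨_, rfl⟩
  have hQ : Q₂ = Q₁ + C (τ : ℚ) := by
    rw [hQ₂, hτ, map_add, map_C, hQ₁]
    rfl
  obtain ⟨f, hf⟩ : ∃ f, f = map (Int.castRingHom ℚ) (homogeneousComponent (m + 1) F₁) := ⟨_, rfl⟩
  have hd1 : Q₁.totalDegree ≤ m + 1 := by
    rw [hQ₁]
    exact (Finset.sup_mono (support_map_subset _ _)).trans hF
  have hd2 : Q₂.totalDegree ≤ m + 1 := by
    rw [hQ]
    refine (totalDegree_add _ _).trans (max_le hd1 ?_)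
    rw [totalDegree_C]
    omega
  have hC0 : ∀ k, k ≠ 0 → homogeneousComponent k (C (τ : ℚ) : MvPolynomial (Fin 2) ℚ) = 0 := by
    intro k hk
    refine homogeneousComponent_eq_zero _ _ ?_
    rw [totalDegree_C]
    omega
  have t1 : homogeneousComponent (m + 1) Q₁ = f := by rw [hQ₁, hc_map', hf]
  have t2 : homogeneousComponent (m + 1) Q₂ = f := by rw [hQ, map_add, hC0 _ (by omega), add_zero, t1]
  have g1 : homogeneousComponent m Q₁ = ∑ i, C (v i) * pderiv i f := by rw [hQ₁, hc_map', hv, hf]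
  have g2 : homogeneousComponent m Q₂ = ∑ i, C (v i) * pderiv i f := by rw [hQ, map_add, hC0 _ (by omega), add_zero, g1]
  rw [← hQ₁, ← hQ₂] at e
  have s1 := shift_top hd2 w a
  have s2 := shift_comp hd2 w a
  rw [e, homogeneousComponent_C_mul, t1, t2] at s1
  rw [e, homogeneousComponent_C_mul, g1, g2, t2] at s2
  have hf0 : f ≠ 0 := by rw [hf]; exact hirr.ne_zero
  have hc : c = a ^ (m + 1) := C_injective _ _ (mul_right_cancel₀ hf0 s1)
  have ham : (C (a ^ m) : MvPolynomial (Fin 2) ℚ) ≠ 0 := by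
    rw [Ne, C_eq_zero]
    exact pow_ne_zero _ ha
  have e3 : C a * ∑ i, C (v i) * pderiv i f = ∑ i, C (v i) * pderiv i f + ∑ i, C (w i) * pderiv i f := by
    refine mul_left_cancel₀ ham ?_
    rw [← s2, hc, pow_succ, C_mul, mul_assoc]
  have hw : w = fun i => (a - 1) * v i := by
    have h2 : ∑ i, C (w i - (a - 1) * v i) * pderiv i f = 0 := by
      have h3 : ∀ i, C (w i - (a - 1) * v i) * pderiv i f = C (w i) * pderiv i f - (C a - 1) * (C (v i) * pderiv i f) := by
        intro i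
        rw [C_sub, C_mul, C_sub, C_1]
        ring
      rw [Finset.sum_congr rfl fun i _ => h3 i, Finset.sum_sub_distrib, ← Finset.mul_sum]
      linear_combination -e3
    have h4 := grad_ne (by omega : 2 ≤ m + 1) (hf ▸ hirr) (by
      rw [hf]
      exact (homogeneousComponent_isHomogeneous _ _).map _) h2
    funext i
    have := congrFun h4 i
    simp only [Pi.zero_apply] at this
    linarith
  -- evaluation at `-v`
  obtain ⟨ψ, hψ⟩ : ∃ ψ : MvPolynomial (Fin 2) ℚ →ₐ[ℚ] ℚ, ψ = aeval (fun i => - v i) := ⟨_, rfl⟩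
  have hψ1 : ∀ (g : Fin 2 → MvPolynomial (Fin 2) ℚ) (P : MvPolynomial (Fin 2) ℚ), ψ (aeval g P) = aeval (fun i => ψ (g i)) P := by
    intro g P
    have h3 : (ψ.comp (aeval g) : MvPolynomial (Fin 2) ℚ →ₐ[ℚ] ℚ) = aeval (fun i => ψ (g i)) := by
      rw [comp_aeval]
    exact DFunLike.congr_fun h3 P
  have hψ2 : (fun i => ψ (C (w i) + C a * X i)) = fun i => - v i := by
    funext i
    rw [hψ, hw]
    simp
    ring
  have hψC : ∀ b : ℚ, ψ (C b) = b := by
    intro b
    rw [hψ]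
    simp
  have hψm : ∀ P : MvPolynomial (Fin 2) ℤ, ψ (map (Int.castRingHom ℚ) P) = aeval (fun i => - v i) P := by
    intro P
    rw [hψ, ← algebraMap_int_eq ℚ]
    exact aeval_map_algebraMap ℚ _ P
  have k1 := congrArg ψ e
  rw [map_mul, hψ1, hψ2, hψC] at k1
  have k2 := congrArg (fun P => ψ (pderiv 0 P)) e
  rw [pderiv_C_mul, sp_chain, map_mul, map_mul, hψ1, hψ2, hψC, hψC] at k2
  have d12 : pderiv 0 Q₂ = pderiv 0 Q₁ := by rw [hQ, map_add, pderiv_C, add_zero]
  have d3 : ψ (pderiv 0 Q₁) ≠ 0 := by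
    rw [hQ₁, pderiv_map, hψm]
    exact h1
  have d4 : (aeval (fun i => - v i) (pderiv 0 Q₂) : ℚ) = ψ (pderiv 0 Q₁) := by rw [d12, hψ]
  rw [d4] at k2
  have hac : a = c := mul_right_cancel₀ d3 k2
  rw [hc, pow_succ] at hac
  have ham1 : a ^ m = 1 := by
    have : (a ^ m - 1) * a = 0 := by linear_combination -hac
    rcases mul_eq_zero.1 this with h5 | h5
    · exact sub_eq_zero.1 h5
    · exact absurd h5 ha
  rcases pow_eq_one_iff_cases.1 ham1 with h5 | h5 | h5
  · omega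
  · left
    have h6 : w = 0 := by
      rw [hw, h5]
      funext i
      simp
    rw [h6, hc, h5, one_pow, C_1, one_mul] at e
    have h7 : (fun i => C ((0 : Fin 2 → ℚ) i) + 1 * X i : Fin 2 → MvPolynomial (Fin 2) ℚ) = X := by
      funext i
      rw [Pi.zero_apply, C_0, zero_add, one_mul]
    rw [h7, aeval_X_left_apply, hQ₁, hQ₂] at e
    exact (map_injective _ (Int.cast_injective : Function.Injective (Int.castRingHom ℚ)) e).symm
  · right
    have h6 : c = -1 := by rw [hc, pow_succ, ham1, one_mul, h5.1]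
    rw [h6] at k1
    rw [← hψm F₂, ← hψm F₁, ← hQ₁, ← hQ₂]
    have h8 : ψ Q₂ = aeval (fun i => - v i) Q₂ := by rw [hψ]
    rw [h8, k1]
    ring

end Pool.Agent.H88.A2
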