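import Pool.Agent.H12.ON.Fam

/-! # [H88 A2 SPR] Two exceptional pairs near the same real zero are related by a homothety

The first half of the proof of `H12.ON.family` (private there), without the condition on the part of degree `n - 1`. -/

namespace Pool.Agent.H88.A2

open MvPolynomial Pool.Agent.H12.ON

private theorem fam_hc {n : ℕ} (hn : 3 ≤ n) {G F : MvPolynomial (Fin 2) ℤ} (h : (F - G).totalDegree ≤ n - 2) :
    homogeneousComponent n F = homogeneousComponent n G := by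
  have h1 : homogeneousComponent n (F - G) = 0 := homogeneousComponent_eq_zero _ _ (by omega)
  rw [map_sub] at h1
  exact sub_eq_zero.1 h1

private theorem fam_ftop {n : ℕ} (hn : 3 ≤ n) {G F : MvPolynomial (Fin 2) ℤ} (h : (F - G).totalDegree ≤ n - 2) :
    ftop n F = ftop n G := by
  rw [← deh_hom n F, ← deh_hom n G, fam_hc hn h]

private theorem fam_deg {n : ℕ} (hn : 3 ≤ n) {G F : MvPolynomial (Fin 2) ℤ} (hG : G.totalDegree ≤ n)
    (h : (F - G).totalDegree ≤ n - 2) : F.totalDegree ≤ n := by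
  have h1 : F = (F - G) + G := by ring
  rw [h1]
  refine (totalDegree_add _ _).trans (max_le (by omega) hG)

private theorem fam_tdmap (F : MvPolynomial (Fin 2) ℤ) :
    (map (Int.castRingHom ℚ) F).totalDegree ≤ F.totalDegree :=
  Finset.sup_mono (support_map_subset _ _)

private theorem fam_hcmap {k l : Type} [CommRing k] [CommRing l] (f : k →+* l) (n : ℕ)
    (F : MvPolynomial (Fin 2) k) :
    homogeneousComponent n (map f F) = map f (homogeneousComponent n F) := by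
  ext m
  rw [coeff_homogeneousComponent, coeff_map, coeff_map, coeff_homogeneousComponent]
  split_ifs
  · rfl
  · rw [map_zero]

/-! ### The part of degree `n` on a line -/

private theorem fam_ftop_coeff (n : ℕ) (F : MvPolynomial (Fin 2) ℤ) (j : ℕ) :
    (ftop n F).coeff j =
      if j < n + 1 then F.coeff (Finsupp.single 0 (n - j) + Finsupp.single 1 j) else 0 := by
  unfold ftop
  rw [Polynomial.finsetSum_coeff]
  simp only [Polynomial.coeff_monomial]
  rw [Finset.sum_ite_eq' (Finset.range (n + 1)) j]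
  simp only [Finset.mem_range]

private theorem fam_ftop_deg (n : ℕ) (F : MvPolynomial (Fin 2) ℤ) : (ftop n F).natDegree ≤ n := by
  rw [Polynomial.natDegree_le_iff_coeff_eq_zero]
  intro j hj
  rw [fam_ftop_coeff, if_neg (by omega)]

private theorem fam_ftop_map (n : ℕ) (F : MvPolynomial (Fin 2) ℤ) :
    ftop n (map (Int.castRingHom ℚ) F) = (ftop n F).map (Int.castRingHom ℚ) := by
  unfold ftop
  rw [Polynomial.map_sum]
  refine Finset.sum_congr rfl fun j _ => ?_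
  rw [Polynomial.map_monomial, coeff_map]

private theorem top_sum {K : Type} [CommRing K] (n : ℕ) (F : MvPolynomial (Fin 2) ℤ) (φ : ℕ → ℕ → K) :
    ∑ m ∈ F.support.filter (fun m => m 0 + m 1 = n), ((F.coeff m : ℤ) : K) * φ (m 0) (m 1) =
      ∑ j ∈ Finset.range (n + 1), (((ftop n F).coeff j : ℤ) : K) * φ (n - j) j := by
  symm
  have h1 : ∀ j ∈ Finset.range (n + 1), (((ftop n F).coeff j : ℤ) : K) * φ (n - j) j =
      ((F.coeff (Finsupp.single 0 (n - j) + Finsupp.single 1 j) : ℤ) : K) * φ (n - j) j := by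
    intro j hj
    rw [fam_ftop_coeff, if_pos (Finset.mem_range.1 hj)]
  rw [Finset.sum_congr rfl h1]
  have h2 : ∀ j, (Finsupp.single 0 (n - j) + Finsupp.single 1 j : Fin 2 →₀ ℕ) 0 = n - j := by
    intro j; simp
  have h3 : ∀ j, (Finsupp.single 0 (n - j) + Finsupp.single 1 j : Fin 2 →₀ ℕ) 1 = j := by
    intro j; simp
  refine Finset.sum_bij_ne_zero (fun j _ _ => Finsupp.single 0 (n - j) + Finsupp.single 1 j) ?_ ?_ ?_ ?_
  · intro j hj hne
    rw [Finset.mem_filter, mem_support_iff, h2, h3]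
    refine ⟨fun h0 => hne (by rw [h0, Int.cast_zero, zero_mul]), ?_⟩
    have := Finset.mem_range.1 hj
    omega
  · intro a _ _ b _ _ hab
    have := congrArg (fun m => m 1) hab
    simpa using this
  · intro m hm hne
    rw [Finset.mem_filter] at hm
    have h4 : (Finsupp.single 0 (n - m 1) + Finsupp.single 1 (m 1) : Fin 2 →₀ ℕ) = m := by
      ext i
      fin_cases i
      · have := hm.2
        simp
        omega
      · simp
    refine ⟨m 1, Finset.mem_range.2 (by have := hm.2; omega), ?_, h4⟩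
    rw [h4]
    have h5 : n - m 1 = m 0 := by have := hm.2; omega
    rw [h5]
    exact hne
  · intro j hj hne
    rw [h2, h3]

private theorem line_coeff {n : ℕ} {F : MvPolynomial (Fin 2) ℤ} (hF : F.totalDegree ≤ n) (u w : Fin 2 → ℝ) :
    (aeval (fun i => Polynomial.C (w i) + Polynomial.C (u i) * Polynomial.X : Fin 2 → Polynomial ℝ) F).coeff n =
      ∑ j ∈ Finset.range (n + 1), (((ftop n F).coeff j : ℤ) : ℝ) * (u 0 ^ (n - j) * u 1 ^ j) := by
  have hdeg : ∀ i, (Polynomial.C (w i) + Polynomial.C (u i) * Polynomial.X : Polynomial ℝ).natDegree ≤ 1 := by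
    intro i
    compute_degree
  have hco : ∀ i, (Polynomial.C (w i) + Polynomial.C (u i) * Polynomial.X : Polynomial ℝ).coeff 1 = u i := by
    intro i
    simp [Polynomial.coeff_C]
  have hp : ∀ i (e : ℕ), ((Polynomial.C (w i) + Polynomial.C (u i) * Polynomial.X : Polynomial ℝ) ^ e).natDegree ≤ e := by
    intro i e
    refine Polynomial.natDegree_pow_le.trans ?_
    have := hdeg i
    calc e * _ ≤ e * 1 := Nat.mul_le_mul_left _ this
      _ = e := mul_one _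
  have hpc : ∀ i (e : ℕ), ((Polynomial.C (w i) + Polynomial.C (u i) * Polynomial.X : Polynomial ℝ) ^ e).coeff e =
      u i ^ e := by
    intro i e
    have h1 := Polynomial.coeff_pow_of_natDegree_le (m := e) (hdeg i)
    rw [mul_one, hco] at h1
    exact h1
  rw [aeval_def, eval₂_eq']
  simp only [Fin.prod_univ_two]
  rw [Polynomial.finsetSum_coeff, ← Finset.sum_filter_add_sum_filter_not F.support (fun m => m 0 + m 1 = n),
    ← top_sum n F (fun a b => u 0 ^ a * u 1 ^ b)]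
  have h0 : ∑ m ∈ F.support.filter (fun m => ¬ (m 0 + m 1 = n)), (algebraMap ℤ (Polynomial ℝ) (F.coeff m) *
      ((Polynomial.C (w 0) + Polynomial.C (u 0) * Polynomial.X) ^ m 0 *
        (Polynomial.C (w 1) + Polynomial.C (u 1) * Polynomial.X) ^ m 1)).coeff n = 0 := by
    refine Finset.sum_eq_zero fun m hm => ?_
    rw [Finset.mem_filter] at hm
    have h1 := le_totalDegree hm.1
    rw [Finsupp.sum_fintype _ _ (fun _ => rfl), Fin.sum_univ_two] at h1
    have h2 : m 0 + m 1 < n := lt_of_le_of_ne (h1.trans hF) hm.2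
    rw [eq_intCast, ← Polynomial.C_eq_intCast, Polynomial.coeff_C_mul]
    rw [Polynomial.coeff_eq_zero_of_natDegree_lt, mul_zero]
    refine lt_of_le_of_lt Polynomial.natDegree_mul_le ?_
    have h3 := hp 0 (m 0)
    have h4 := hp 1 (m 1)
    omega
  rw [h0, add_zero]
  refine Finset.sum_congr rfl fun m hm => ?_
  rw [Finset.mem_filter] at hm
  rw [eq_intCast, ← Polynomial.C_eq_intCast, Polynomial.coeff_C_mul]
  have h5 := Polynomial.coeff_mul_add_eq_of_natDegree_le (hp 0 (m 0)) (hp 1 (m 1))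
  rw [hm.2, hpc, hpc] at h5
  rw [h5]

private theorem fam_hom {n : ℕ} (g : Polynomial ℤ) (hg : g.natDegree ≤ n) (u v : ℝ) (hu : u ≠ 0) :
    ∑ j ∈ Finset.range (n + 1), ((g.coeff j : ℤ) : ℝ) * (u ^ (n - j) * v ^ j) =
      u ^ n * Polynomial.aeval (v / u) g := by
  have h1 : (g.map (Int.castRingHom ℝ)).natDegree < n + 1 :=
    lt_of_le_of_lt Polynomial.natDegree_map_le (by omega)
  have h0 : Polynomial.aeval (v / u) g = (g.map (Int.castRingHom ℝ)).eval (v / u) := by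
    rw [Polynomial.eval_map, Polynomial.aeval_def]
    rfl
  rw [h0, Polynomial.eval_eq_sum_range' h1, Finset.mul_sum]
  refine Finset.sum_congr rfl fun j hj => ?_
  have h2 : j ≤ n := by
    have := Finset.mem_range.1 hj
    omega
  rw [Polynomial.coeff_map, eq_intCast, div_pow]
  have h3 : u ^ n = u ^ (n - j) * u ^ j := by
    rw [← pow_add]
    congr 1
    omega
  rw [h3]
  field_simp

/-! ### Two exceptional pairs at the same real zero -/

private theorem fam_line {F₁ F₂ : MvPolynomial (Fin 2) ℤ} {A : Matrix (Fin 2) (Fin 2) ℚ} {w : Fin 2 → ℚ} {c : ℚ}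
    (h : aeval (fun i => ∑ j, C (A i j) * X j + C (w i) : Fin 2 → MvPolynomial (Fin 2) ℚ) F₂ =
      C c * map (Int.castRingHom ℚ) F₁) (θ : ℝ) :
    aeval (fun i => Polynomial.C ((w i : ℝ)) + Polynomial.C ((A i 0 : ℝ) + A i 1 * θ) * Polynomial.X :
      Fin 2 → Polynomial ℝ) F₂ =
      Polynomial.C (c : ℝ) * aeval (fun i => Polynomial.C ((0 : ℝ)) + Polynomial.C ((![1, θ] : Fin 2 → ℝ) i) *
        Polynomial.X : Fin 2 → Polynomial ℝ) F₁ := by
  have hC : ∀ q : ℚ, algebraMap ℚ (Polynomial ℝ) q = Polynomial.C (q : ℝ) := fun q => by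
    rw [IsScalarTower.algebraMap_apply ℚ ℝ (Polynomial ℝ), Polynomial.algebraMap_eq, eq_ratCast]
  obtain ⟨ψ, hψ⟩ : ∃ ψ : MvPolynomial (Fin 2) ℚ →ₐ[ℚ] Polynomial ℝ,
      ψ = aeval (fun j => Polynomial.C ((![1, θ] : Fin 2 → ℝ) j) * Polynomial.X) := ⟨_, rfl⟩
  have h1 := congrArg ψ h
  have h2 : ∀ (g : Fin 2 → MvPolynomial (Fin 2) ℚ) (F : MvPolynomial (Fin 2) ℤ),
      ψ (aeval g F) = aeval (fun i => ψ (g i)) F := by
    intro g F
    have h3 : ((ψ.restrictScalars ℤ).comp (aeval g) : MvPolynomial (Fin 2) ℤ →ₐ[ℤ] Polynomial ℝ) =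
        aeval (fun i => ψ (g i)) := by
      rw [comp_aeval]
      rfl
    exact DFunLike.congr_fun h3 F
  rw [h2, map_mul] at h1
  have h4 : ψ (C c) = Polynomial.C (c : ℝ) := by
    rw [hψ, aeval_C, hC]
  have h5 : ψ (map (Int.castRingHom ℚ) F₁) = aeval (fun i => Polynomial.C ((0 : ℝ)) +
      Polynomial.C ((![1, θ] : Fin 2 → ℝ) i) * Polynomial.X : Fin 2 → Polynomial ℝ) F₁ := by
    rw [hψ]
    have h6 := aeval_map_algebraMap (R := ℤ) ℚ
      (fun j => Polynomial.C ((![1, θ] : Fin 2 → ℝ) j) * Polynomial.X : Fin 2 → Polynomial ℝ) F₁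
    rw [← algebraMap_int_eq ℚ, h6]
    congr 2
    funext i
    rw [map_zero, zero_add]
  rw [h4, h5] at h1
  rw [← h1]
  congr 2
  funext i
  have h7 : ψ (∑ j, C (A i j) * X j + C (w i)) = Polynomial.C (A i 0 : ℝ) * (Polynomial.C 1 * Polynomial.X) +
      Polynomial.C (A i 1 : ℝ) * (Polynomial.C θ * Polynomial.X) + Polynomial.C (w i : ℝ) := by
    rw [Fin.sum_univ_two, map_add, map_add, map_mul, map_mul, hψ, aeval_C, aeval_C, aeval_C, aeval_X, aeval_X, hC,
      hC, hC]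
    rfl
  rw [h7, Polynomial.C_add, Polynomial.C_mul, Polynomial.C_1]
  ring

/-- the image of the direction `θ` is a direction at infinity -/
private theorem fam_dir {n : ℕ} (hn : 2 ≤ n) {F₁ F₂ : MvPolynomial (Fin 2) ℤ} (h1 : F₁.totalDegree ≤ n)
    (h2 : F₂.totalDegree ≤ n) (hf : ftop n F₁ = ftop n F₂) (hl : (ftop n F₂).coeff n ≠ 0)
    {A : Matrix (Fin 2) (Fin 2) ℚ} {w : Fin 2 → ℚ} {c : ℚ} (hA : A.det ≠ 0)
    (h : aeval (fun i => ∑ j, C (A i j) * X j + C (w i) : Fin 2 → MvPolynomial (Fin 2) ℚ) F₂ =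
      C c * map (Int.castRingHom ℚ) F₁) {θ : ℝ} (hθ : Polynomial.aeval θ (ftop n F₂) = 0) :
    ∃ θ' : ℝ, Polynomial.aeval θ' (ftop n F₂) = 0 ∧
      (A 1 0 : ℝ) + A 1 1 * θ = θ' * (A 0 0 + A 0 1 * θ) := by
  have e1 := congrArg (fun p => Polynomial.coeff p n) (fam_line h θ)
  simp only [Polynomial.coeff_C_mul] at e1
  rw [line_coeff h2 (fun i => (A i 0 : ℝ) + A i 1 * θ) (fun i => (w i : ℝ)),
    line_coeff h1 (![1, θ] : Fin 2 → ℝ) (fun _ => (0 : ℝ)), hf] at e1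
  have e2 := fam_hom (n := n) (ftop n F₂) (fam_ftop_deg n F₂) 1 θ one_ne_zero
  rw [div_one, hθ, mul_zero] at e2
  have e3 : ∑ j ∈ Finset.range (n + 1), (((ftop n F₂).coeff j : ℤ) : ℝ) *
      ((![1, θ] : Fin 2 → ℝ) 0 ^ (n - j) * (![1, θ] : Fin 2 → ℝ) 1 ^ j) = 0 := by
    simpa only [Matrix.cons_val_zero, Matrix.cons_val_one] using e2
  rw [e3, mul_zero] at e1
  have hdet : (A 0 0 : ℝ) * A 1 1 - A 0 1 * A 1 0 ≠ 0 := by
    rw [Matrix.det_fin_two] at hA
    exact_mod_cast hA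
  by_cases hu : (A 0 0 : ℝ) + A 0 1 * θ = 0
  · exfalso
    simp only [hu] at e1
    rw [Finset.sum_eq_single n] at e1
    · rw [Nat.sub_self, pow_zero, one_mul] at e1
      rcases mul_eq_zero.1 e1 with h3 | h3
      · exact hl (by exact_mod_cast h3)
      · have h4 : (A 1 0 : ℝ) + A 1 1 * θ = 0 := (pow_eq_zero_iff (by omega)).1 h3
        refine hdet ?_
        have h5 : (A 1 1 : ℝ) * (A 0 0 + A 0 1 * θ) - A 0 1 * (A 1 0 + A 1 1 * θ) = 0 := by
          rw [hu, h4]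
          ring
        linear_combination h5
    · intro j hj hjn
      have h3 : n - j ≠ 0 := by
        have := Finset.mem_range.1 hj
        omega
      rw [zero_pow h3, zero_mul, mul_zero]
    · intro h3
      exact absurd (Finset.mem_range.2 (Nat.lt_succ_self n)) h3
  · refine ⟨((A 1 0 : ℝ) + A 1 1 * θ) / (A 0 0 + A 0 1 * θ), ?_, ?_⟩
    · have e4 := fam_hom (n := n) (ftop n F₂) (fam_ftop_deg n F₂) ((A 0 0 : ℝ) + A 0 1 * θ)
        ((A 1 0 : ℝ) + A 1 1 * θ) hu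
      rw [e1] at e4
      rcases mul_eq_zero.1 e4.symm with h3 | h3
      · exact absurd h3 (pow_ne_zero _ hu)
      · exact h3
    · rw [div_mul_cancel₀ _ hu]

theorem homr (n : ℕ) (hn : 4 ≤ n) : ∃ E : ℕ, ∀ G : MvPolynomial (Fin 2) ℤ, G.totalDegree ≤ n →
    Irreducible (map (Int.castRingHom ℚ) (homogeneousComponent n G)) →
    ∀ (F₁ F₂ : MvPolynomial (Fin 2) ℤ) (H₁ H₂ : ℕ) (θ : ℝ) (x₁ y₁ x₂ y₂ : ℤ),
    Good n F₁ → Good n F₂ → (F₁ - G).totalDegree ≤ n - 2 → (F₂ - G).totalDegree ≤ n - 2 → 2 ≤ H₁ → H₁ ≤ H₂ →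
    (∀ m, |F₁.coeff m| ≤ (H₁ : ℤ)) → (∀ m, |F₂.coeff m| ≤ (H₂ : ℤ)) →
    Polynomial.aeval θ (ftop n G) = 0 → Near θ x₁ y₁ → Near θ x₂ y₂ →
    aeval ![x₁, y₁] F₁ = (0 : ℤ) → aeval ![x₂, y₂] F₂ = (0 : ℤ) → (H₁ : ℤ) ^ E < max |x₁| |y₁| →
    (H₂ : ℤ) ^ E < max |x₂| |y₂| → ∃ (a c : ℚ) (w : Fin 2 → ℚ), a ≠ 0 ∧
      aeval (fun i => C (w i) + C a * X i : Fin 2 → MvPolynomial (Fin 2) ℚ) (map (Int.castRingHom ℚ) F₂) =
        C c * map (Int.castRingHom ℚ) F₁ := by
  have hn3 : 3 ≤ n := by omega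
  obtain ⟨E1, hE1⟩ := near_exists n hn3
  obtain ⟨E2, hE2⟩ := pair n hn
  obtain ⟨E3, C3, hE3⟩ := cmp n hn
  obtain ⟨E4, hE4⟩ := dir_eq n E2 (by omega)
  refine ⟨E1 + E2 + E3 + 2 * (E4 * C3), ?_⟩
  intro G hG hirr F₁ F₂ H₁ H₂ θ x₁ y₁ x₂ y₂ hg1 hg2 hd1 hd2 hH1 hH12 hc1 hc2 hθ hn1 hn2 hz1 hz2 hb1 hb2
  have hH2 : 2 ≤ H₂ := hH1.trans hH12
  have hpow : ∀ {h : ℕ} {a b : ℕ} {z : ℤ}, 2 ≤ h → a ≤ b → (h : ℤ) ^ b < z → (h : ℤ) ^ a < z := by
    intro h a b z hh hab hz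
    have hh1 : (1 : ℤ) ≤ (h : ℤ) := by exact_mod_cast (by omega : 1 ≤ h)
    exact lt_of_le_of_lt (pow_le_pow_right₀ hh1 hab) hz
  have hf1 : ftop n F₁ = ftop n G := fam_ftop hn3 hd1
  have hf2 : ftop n F₂ = ftop n G := fam_ftop hn3 hd2
  have hR := hE2 F₁ F₂ H₁ H₂ θ θ x₁ y₁ x₂ y₂ hg1 hg2 hH1 hH12 hc1 hc2 (hf1 ▸ hθ) (hf2 ▸ hθ) rfl hn1 hn2 hz1 hz2
    (hpow hH1 (by omega) hb1) (hpow hH2 (by omega) hb2)
  obtain ⟨A, w, c, hdet, hc0, hAh, hwh, _, hP, he⟩ := hR
  have hl1 : Irreducible (map (Int.castRingHom ℚ) (homogeneousComponent n F₁)) := hg1.lead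
  have hl2 : Irreducible (map (Int.castRingHom ℚ) (homogeneousComponent n F₂)) := hg2.lead
  have hcmp := hE3 F₁ F₂ H₁ H₂ θ θ x₁ y₁ x₂ y₂ hg1.deg hg2.deg hl1 hl2 hH1 hH2 hc1 hc2
    (hf1 ▸ hθ) (hf2 ▸ hθ) rfl hn1 hn2 hz1 hz2 (hpow hH1 (by omega) hb1) (hpow hH2 (by omega) hb2)
  obtain ⟨hx2, hmx, -⟩ := hE1 F₁ H₁ hg1.deg hl1 hH1 hc1 x₁ y₁ hz1 (hpow hH1 (by omega) hb1)
  -- `x₁` is larger than every fixed power of `H₂`
  have hxbig : (H₂ : ℤ) ^ E4 < |x₁| := by
    by_contra hcon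
    push Not at hcon
    have h1 : max |x₂| |y₂| ≤ ((H₂ : ℤ) ^ E4) ^ (2 * C3) := by
      refine hcmp.trans ?_
      rw [pow_mul]
      refine pow_le_pow_left₀ (le_trans (abs_nonneg _) (le_max_left _ _)) (hmx.trans ?_) _
      exact pow_le_pow_left₀ (abs_nonneg _) hcon 2
    rw [← pow_mul] at h1
    have h2 := hpow hH2 (show E4 * (2 * C3) ≤ E1 + E2 + E3 + 2 * (E4 * C3) by
      have : E4 * (2 * C3) = 2 * (E4 * C3) := by ring
      omega) hb2
    omega
  -- the polynomial `f(1,T)`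
  have hirr' : Irreducible (homogeneousComponent n (map (Int.castRingHom ℚ) G)) := by
    rw [fam_hcmap]
    exact hirr
  obtain ⟨hdegQ, hirrQ⟩ := deh (by omega : 2 ≤ n) hirr'
  rw [fam_ftop_map] at hdegQ hirrQ
  have hinj : Function.Injective (Int.castRingHom ℚ) := Int.cast_injective
  have hdeg : (ftop n G).natDegree = n := by
    rw [Polynomial.natDegree_map_eq_of_injective hinj] at hdegQ
    exact hdegQ
  have hlead : (ftop n F₂).coeff n ≠ 0 := by
    rw [hf2]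
    intro h0
    have h1 : (ftop n G).leadingCoeff = 0 := by
      rw [Polynomial.leadingCoeff, hdeg]
      exact h0
    have h2 := Polynomial.leadingCoeff_eq_zero.1 h1
    rw [h2, Polynomial.map_zero] at hirrQ
    exact hirrQ.ne_zero rfl
  have hcoef : ∀ i, |(ftop n G).coeff i| ≤ (H₂ : ℤ) := by
    intro i
    rw [← hf2, fam_ftop_coeff]
    split_ifs
    · exact hc2 _
    · rw [abs_zero]
      positivity
  obtain ⟨θ', hθ'1, hθ'2⟩ := fam_dir (by omega : 2 ≤ n) hg1.deg hg2.deg (hf1.trans hf2.symm) hlead hdet he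
    (hf2 ▸ hθ)
  rw [hf2] at hθ'1
  have hP0 : (x₂ : ℚ) = A 0 0 * x₁ + A 0 1 * y₁ + w 0 := by
    have h1 := hP 0
    rw [Fin.sum_univ_two] at h1
    simpa using h1
  have hP1 : (y₂ : ℚ) = A 1 0 * x₁ + A 1 1 * y₁ + w 1 := by
    have h1 := hP 1
    rw [Fin.sum_univ_two] at h1
    simpa using h1
  have hθθ : θ' = θ := hE4 (ftop n G) H₂ θ θ' A w x₁ y₁ x₂ y₂ hirrQ hdeg hH2 hcoef hθ hθ'1 hdet hAh hwh hθ'2 hn1 hn2
    hP0 hP1 hxbig
  rw [hθθ] at hθ'2
  have hθQ : Polynomial.aeval θ ((ftop n G).map (Int.castRingHom ℚ)) = 0 := by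
    have h1 := Polynomial.aeval_map_algebraMap ℚ θ (ftop n G)
    rw [algebraMap_int_eq] at h1
    rw [h1]
    exact hθ
  obtain ⟨hA01, hA10, hA11⟩ := scal hn3 hirrQ hdegQ hθQ hθ'2
  have hA0 : A 0 0 ≠ 0 := by
    intro h0
    apply hdet
    rw [Matrix.det_fin_two, h0, hA01]
    ring
  have he' : aeval (fun i => C (w i) + C (A 0 0) * X i : Fin 2 → MvPolynomial (Fin 2) ℚ)
      (map (Int.castRingHom ℚ) F₂) = C c * map (Int.castRingHom ℚ) F₁ := by
    rw [← he, ← algebraMap_int_eq ℚ, aeval_map_algebraMap]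
    congr 2
    funext i
    fin_cases i
    · simp [Fin.sum_univ_two, hA01]
      ring
    · simp [Fin.sum_univ_two, hA10, hA11]
      ring
  exact ⟨A 0 0, c, w, hA0, he'⟩

end Pool.Agent.H88.A2
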