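import Pool.Agent.H8.AA.Def

/-! # [H88 A2 DEF] definitions for THEOREM AA2 (every fixed upper part), MP_821da1_nt, think note 2583 -/

namespace Pool.Agent.H88.A2

open Finset Polynomial Pool.Agent.H8.AA

/-- scaled bound for the coefficients -/
def Bs (n : ℕ) (B S : ℝ) (e : ℕ → ℕ → ℤ) : Prop := ∀ a b, a + b ≤ n → |(e a b : ℝ)| ≤ B * S ^ (n - a - b)

/-- the form of degree `n` has no zero in `ℤ²` but `(0,0)` -/
def Nz (n : ℕ) (e : ℕ → ℕ → ℤ) : Prop :=
  ∀ v w : ℤ, v ≠ 0 ∨ w ≠ 0 → ∑ j ∈ range (n + 1), e (n - j) j * (v ^ (n - j) * w ^ j) ≠ 0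

/-- coefficient array of a polynomial in two variables -/
noncomputable def ar (F : MvPolynomial (Fin 2) ℤ) (a b : ℕ) : ℤ := F.coeff (Finsupp.single 0 a + Finsupp.single 1 b)

/-- the hypothesis on the fixed part `G` -/
structure Hyp (n j : ℕ) (G : MvPolynomial (Fin 2) ℤ) : Prop where
  hn : 4 ≤ n
  hj : 1 ≤ j
  hjn : j < n
  deg : G.totalDegree ≤ n
  irr : Irreducible (MvPolynomial.map (Int.castRingHom ℚ) (MvPolynomial.homogeneousComponent n G))
  span : j + 2 ≤ n → ∀ w : Fin 2 → ℚ, MvPolynomial.map (Int.castRingHom ℚ) (MvPolynomial.homogeneousComponent (n - 1) G) ≠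
    ∑ i, MvPolynomial.C (w i) * MvPolynomial.pderiv i
      (MvPolynomial.map (Int.castRingHom ℚ) (MvPolynomial.homogeneousComponent n G))

end Pool.Agent.H88.A2
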